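import Pool.Agent.Lib.MP_8fac0f_nt.OV.Per

/-!
# Counting lemmas
-/

set_option autoImplicit false

namespace Pool.Agent.Lib.MP_8fac0f_nt.OW

open Finset Polynomial N OV

/-- Few arguments at which a function, rapidly increasing on residue classes, is close below a
multiple of `X`. -/
theorem near_class (c : ℕ → ℕ) (M M2 X L γ Bm a : ℕ) (hX : 0 < X) (hγ : 0 < γ)
    (hc : ∀ m m', M ≤ m → m < m' → m' < M2 → m % 2 ^ a = m' % 2 ^ a → c m + γ ≤ c m')
    (hB : ∀ m, M ≤ m → m < M2 → c m / X < Bm) :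
    ((Ico M M2).filter fun m => X < c m % X + L).card ≤ 2 ^ a * (Bm * (L / γ + 1)) := by
  have hcard : (range (2 ^ a) ×ˢ (range Bm ×ˢ range (L / γ + 1))).card =
      2 ^ a * (Bm * (L / γ + 1)) := by
    rw [card_product, card_product, card_range, card_range, card_range]
  rw [← hcard]
  refine card_le_card_of_injOn (fun m => (m % 2 ^ a, (c m / X, (c m % X + L - X) / γ))) ?_ ?_
  · intro m hm
    have hm' := mem_filter.1 (mem_coe.1 hm)
    have hm1 := mem_Ico.1 hm'.1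
    refine mem_coe.2 (mem_product.2 ⟨mem_range.2 (Nat.mod_lt _ (by positivity)),
      mem_product.2 ⟨mem_range.2 (hB m hm1.1 hm1.2), mem_range.2 ?_⟩⟩)
    refine Nat.lt_succ_of_le (Nat.div_le_div_right ?_)
    have := Nat.mod_lt (c m) hX
    omega
  · intro m hm m' hm' hmm
    have hm := mem_filter.1 (mem_coe.1 hm)
    have hm' := mem_filter.1 (mem_coe.1 hm')
    have h0 : m % 2 ^ a = m' % 2 ^ a := (Prod.ext_iff.1 hmm).1
    have hmm2 := (Prod.ext_iff.1 hmm).2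
    have h1 : c m / X = c m' / X := (Prod.ext_iff.1 hmm2).1
    have h2 : (c m % X + L - X) / γ = (c m' % X + L - X) / γ := (Prod.ext_iff.1 hmm2).2
    have key : ∀ s t, s < t → M ≤ s → t < M2 → s % 2 ^ a = t % 2 ^ a → X < c s % X + L →
        c s / X = c t / X → (c s % X + L - X) / γ = (c t % X + L - X) / γ → False := by
      intro s t hab ha hb hst hXa e1 e2
      have e3 := hc s t ha hab hb hst
      have e4 := Nat.div_add_mod (c s) X
      have e5 := Nat.div_add_mod (c t) X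
      rw [e1] at e4
      have e6 : c s % X + γ ≤ c t % X := by omega
      have e7 : (c s % X + L - X) + γ ≤ c t % X + L - X := by omega
      have e8 : (c s % X + L - X + γ) / γ ≤ (c t % X + L - X) / γ := Nat.div_le_div_right e7
      rw [Nat.add_div_right _ hγ] at e8
      omega
    have hma := mem_Ico.1 hm.1
    have hmb := mem_Ico.1 hm'.1
    rcases lt_trichotomy m m' with h | h | h
    · exact (key m m' h hma.1 hmb.2 h0 hm.2 h1 h2).elim
    · exact h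
    · exact (key m' m h hmb.1 hma.2 h0.symm hm'.2 h1.symm h2.symm).elim

theorem gap_lower2 (A : ℕ → ℕ) (d x μ1 m m' l : ℕ) (hl1 : 1 ≤ l) (hl : l ≤ d)
    (hAl : x ^ (d - l) ≤ A l) (hx : 2 ^ μ1 ≤ x) (hm : 2 ^ μ1 ≤ m) (hmm : m ≤ m') :
    A l * m ^ l + 2 ^ (μ1 * (d - 1)) * (m' - m) ≤ A l * m' ^ l := by
  obtain ⟨q, rfl⟩ : ∃ q, l = q + 1 := ⟨l - 1, by omega⟩
  obtain ⟨z, rfl⟩ : ∃ z, m' = m + z := ⟨m' - m, by omega⟩
  have h1 : m ^ (q + 1) + m ^ q * z ≤ (m + z) ^ (q + 1) := by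
    calc m ^ (q + 1) + m ^ q * z = m ^ q * (m + z) := by ring
      _ ≤ (m + z) ^ q * (m + z) := Nat.mul_le_mul_right _ (Nat.pow_le_pow_left hmm _)
      _ = _ := (pow_succ _ _).symm
  have h2 : 2 ^ (μ1 * (d - 1)) ≤ A (q + 1) * m ^ q := by
    calc 2 ^ (μ1 * (d - 1)) = (2 ^ μ1) ^ (d - (q + 1)) * (2 ^ μ1) ^ q := by
          rw [← pow_add, ← pow_mul]; congr 2; omega
      _ ≤ x ^ (d - (q + 1)) * m ^ q :=
          Nat.mul_le_mul (Nat.pow_le_pow_left hx _) (Nat.pow_le_pow_left hm _)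
      _ ≤ _ := Nat.mul_le_mul_right _ hAl
  rw [Nat.add_sub_cancel_left]
  calc A (q + 1) * m ^ (q + 1) + 2 ^ (μ1 * (d - 1)) * z
      ≤ A (q + 1) * m ^ (q + 1) + A (q + 1) * m ^ q * z :=
        Nat.add_le_add_left (Nat.mul_le_mul_right _ h2) _
    _ = A (q + 1) * (m ^ (q + 1) + m ^ q * z) := by ring
    _ ≤ _ := Nat.mul_le_mul_left _ h1

theorem dvd_of_mul (q G t B : ℕ) (hB : ¬ 2 ^ (G + 1) ∣ B) (h : 2 ^ q ∣ t * B) :
    2 ^ (q - G) ∣ t := by
  have hB0 : B ≠ 0 := by rintro rfl; exact hB (dvd_zero _)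
  obtain ⟨β, B', hB', hBe⟩ := Nat.exists_eq_two_pow_mul_odd hB0
  have hβ : β < G + 1 := by
    by_contra hcon
    exact hB (hBe ▸ (pow_dvd_pow 2 (not_lt.1 hcon)).mul_right B')
  rcases Nat.lt_or_ge q β with h1 | h1
  · have : q - G = 0 := by omega
    rw [this, pow_zero]; exact one_dvd _
  · have h2 : 2 ^ q = 2 ^ β * 2 ^ (q - β) := by rw [← pow_add]; congr 1; omega
    have h3 : t * B = 2 ^ β * (t * B') := by rw [hBe]; ring
    rw [h2, h3] at h
    have h4 : 2 ^ (q - β) ∣ t * B' := Nat.dvd_of_mul_dvd_mul_left (by positivity) h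
    have hcop : Nat.Coprime (2 ^ (q - β)) B' := (Nat.coprime_two_left.2 hB').pow_left _
    exact (pow_dvd_pow 2 (by omega)).trans (hcop.dvd_of_dvd_mul_right h4)

theorem hs1_step (P : ℕ[X]) (d x t : ℕ) (hd : P.natDegree = d) :
    ∃ R, hs P 1 (x + t) = hs P 1 x + t * (2 * hs P 2 x + t * R) := by
  unfold hs
  have hdeg : (hasseDeriv 1 P).natDegree ≤ d + 2 := by
    rw [natDegree_hasseDeriv]; omega
  have h1 := eval_shift (hasseDeriv 1 P) (d + 2) hdeg x t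
  rw [sum_range_succ', sum_range_succ'] at h1
  have h2 : ∑ k ∈ range (d + 1), eval x ((hasseDeriv (k + 1 + 1)) ((hasseDeriv 1) P)) *
      t ^ (k + 1 + 1) = t * (t * ∑ k ∈ range (d + 1),
        eval x ((hasseDeriv (k + 1 + 1)) ((hasseDeriv 1) P)) * t ^ k) := by
    rw [mul_sum, mul_sum]
    refine sum_congr rfl fun k _ => ?_
    rw [pow_succ, pow_succ]; ring
  have h3 : eval x ((hasseDeriv (0 + 1)) ((hasseDeriv 1) P)) = 2 * eval x (hasseDeriv 2 P) := by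
    have h4 : (hasseDeriv 1) ((hasseDeriv 1) P) = (2 : ℕ) • hasseDeriv 2 P := by
      have h5 := LinearMap.congr_fun (hasseDeriv_comp (R := ℕ) 1 1) P
      simpa using h5
    rw [zero_add, h4, nsmul_eq_mul, eval_mul]
    simp
  rw [h2, h3] at h1
  refine ⟨∑ k ∈ range (d + 1), eval x ((hasseDeriv (k + 1 + 1)) ((hasseDeriv 1) P)) * t ^ k, ?_⟩
  rw [h1]
  simp only [hasseDeriv_zero', zero_add, pow_one, pow_zero, mul_one]
  ring

/-- The first derivative is nearly injective. -/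
theorem hs1_inj (P : ℕ[X]) (d G q x x' : ℕ) (hd : P.natDegree = d) (hd2 : 2 ≤ d)
    (hG : P.eval 2 < 2 ^ G) (hx : x ≡ 1 [MOD 2 ^ (G + 1)]) (hx' : x' ≡ 1 [MOD 2 ^ (G + 1)])
    (h : hs P 1 x ≡ hs P 1 x' [MOD 2 ^ q]) : x ≡ x' [MOD 2 ^ (q - G)] := by
  have key : ∀ x x' : ℕ, x ≤ x' → x ≡ 1 [MOD 2 ^ (G + 1)] → x' ≡ 1 [MOD 2 ^ (G + 1)] →
      hs P 1 x ≡ hs P 1 x' [MOD 2 ^ q] → x ≡ x' [MOD 2 ^ (q - G)] := by
    intro x x' hle hx hx' h
    obtain ⟨t, rfl⟩ : ∃ t, x' = x + t := ⟨x' - x, by omega⟩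
    have ht : 2 ^ (G + 1) ∣ t := by
      have h1 := (Nat.modEq_iff_dvd' hle).1 (hx.trans hx'.symm)
      rwa [Nat.add_sub_cancel_left] at h1
    obtain ⟨R, hR⟩ := hs1_step P d x t hd
    have h1 : 2 ^ q ∣ t * (2 * hs P 2 x + t * R) := by
      have h2 := (Nat.modEq_iff_dvd' (by rw [hR]; exact Nat.le_add_right _ _)).1 h
      rwa [hR, Nat.add_sub_cancel_left] at h2
    have hval : ¬ 2 ^ G ∣ hs P 2 x := hs_val P d 2 x G hd (by omega) hd2 hG
      (hx.of_dvd (pow_dvd_pow 2 (Nat.le_succ G)))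
    have hB : ¬ 2 ^ (G + 1) ∣ 2 * hs P 2 x + t * R := by
      intro hdiv
      have h2 : 2 ^ (G + 1) ∣ 2 * hs P 2 x :=
        (Nat.dvd_add_left (ht.mul_right R)).1 hdiv
      rw [pow_succ'] at h2
      exact hval (Nat.dvd_of_mul_dvd_mul_left (by norm_num) h2)
    have h3 := dvd_of_mul q G t _ hB h1
    exact (Nat.modEq_iff_dvd' hle).2 (by rwa [Nat.add_sub_cancel_left])
  rcases Nat.le_total x x' with hle | hle
  · exact key x x' hle hx hx' h
  · exact (key x' x hle hx' hx h.symm).symm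

/-- Few `x` for which a multiple of the first derivative is close to zero. -/
theorem x_count (P : ℕ[X]) (d G w u J' σ e c : ℕ) (hd : P.natDegree = d) (hd2 : 2 ≤ d)
    (hG : P.eval 2 < 2 ^ G) (hσ : σ = 2 ^ e * c) (hc : Odd c) (he : e + J' + G + 1 ≤ w)
    (hw : w ≤ u) :
    ((range (2 ^ (u - G - 1))).filter fun y =>
      (hs P 1 (2 ^ u + 2 ^ (G + 1) * y + 1) * σ + 2 ^ (w - J')) % 2 ^ w < 2 ^ (w - J' + 1)).card ≤
      2 ^ (u + 2 + G - J') := by
  have hcard : (range (2 ^ (w - J' + 1 - e)) ×ˢ range (2 ^ (u + 1 - (w - e - G)))).card =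
      2 ^ (u + 2 + G - J') := by
    rw [card_product, card_range, card_range, ← pow_add]
    congr 1
    omega
  rw [← hcard]
  set x : ℕ → ℕ := fun y => 2 ^ u + 2 ^ (G + 1) * y + 1 with hx
  have hu : 2 ^ u = 2 ^ (G + 1) * 2 ^ (u - G - 1) := by rw [← pow_add]; congr 1; omega
  have hxm : ∀ y, x y ≡ 1 [MOD 2 ^ (G + 1)] := fun y => by
    have e1 : x y = 1 + 2 ^ (G + 1) * (2 ^ (u - G - 1) + y) := by
      change 2 ^ u + 2 ^ (G + 1) * y + 1 = _
      rw [hu]; ring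
    rw [e1]
    exact Nat.ModEq.add_left 1 (Nat.modEq_zero_iff_dvd.2 (Dvd.intro _ rfl))
  have hxlt : ∀ y, y < 2 ^ (u - G - 1) → x y < 2 ^ (u + 1) := fun y hy => by
    have h2 : 2 ^ (G + 1) * y + 2 ^ (G + 1) ≤ 2 ^ u := by
      rw [hu]
      calc 2 ^ (G + 1) * y + 2 ^ (G + 1) = 2 ^ (G + 1) * (y + 1) := by ring
        _ ≤ _ := Nat.mul_le_mul_left _ hy
    have h3 : 2 ^ (u + 1) = 2 * 2 ^ u := by ring
    have h4 : 2 ^ 1 ≤ 2 ^ (G + 1) := Nat.pow_le_pow_right (by norm_num) (by omega)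
    change 2 ^ u + 2 ^ (G + 1) * y + 1 < 2 ^ (u + 1)
    omega
  -- divisibility of the residues
  have hdiv : ∀ y, 2 ^ e ∣ (hs P 1 (x y) * σ + 2 ^ (w - J')) % 2 ^ w := fun y => by
    rw [Nat.dvd_mod_iff (pow_dvd_pow 2 (by omega))]
    refine dvd_add ?_ (pow_dvd_pow 2 (by omega))
    rw [hσ]
    exact Dvd.dvd.mul_left (Dvd.intro _ rfl) _
  refine card_le_card_of_injOn (fun y => ((hs P 1 (x y) * σ + 2 ^ (w - J')) % 2 ^ w / 2 ^ e,
    x y / 2 ^ (w - e - G))) ?_ ?_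
  · intro y hy
    have hy' := mem_filter.1 (mem_coe.1 hy)
    have hy1 := mem_range.1 hy'.1
    refine mem_coe.2 (mem_product.2 ⟨mem_range.2 ?_, mem_range.2 ?_⟩)
    · refine Nat.div_lt_of_lt_mul ?_
      rw [← pow_add]
      have e1 : e + (w - J' + 1 - e) = w - J' + 1 := by omega
      rw [e1]
      exact hy'.2
    · refine Nat.div_lt_of_lt_mul ?_
      rw [← pow_add]
      have e1 : w - e - G + (u + 1 - (w - e - G)) = u + 1 := by omega
      rw [e1]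
      exact hxlt y hy1
  · intro y hy y' hy' hyy
    have h1 : (hs P 1 (x y) * σ + 2 ^ (w - J')) % 2 ^ w / 2 ^ e =
        (hs P 1 (x y') * σ + 2 ^ (w - J')) % 2 ^ w / 2 ^ e := (Prod.ext_iff.1 hyy).1
    have h2 : x y / 2 ^ (w - e - G) = x y' / 2 ^ (w - e - G) := (Prod.ext_iff.1 hyy).2
    have h3 : (hs P 1 (x y) * σ + 2 ^ (w - J')) % 2 ^ w =
        (hs P 1 (x y') * σ + 2 ^ (w - J')) % 2 ^ w := by
      rw [← Nat.div_mul_cancel (hdiv y), ← Nat.div_mul_cancel (hdiv y'), h1]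
    have h4 : hs P 1 (x y) * σ ≡ hs P 1 (x y') * σ [MOD 2 ^ w] :=
      Nat.ModEq.add_right_cancel' _ h3
    have h5 : hs P 1 (x y) ≡ hs P 1 (x y') [MOD 2 ^ (w - e)] := by
      have e1 : ∀ z, z * σ = 2 ^ e * (z * c) := fun z => by rw [hσ]; ring
      rw [e1, e1] at h4
      have e2 : 2 ^ w = 2 ^ e * 2 ^ (w - e) := by rw [← pow_add]; congr 1; omega
      rw [e2] at h4
      have h6 := Nat.ModEq.mul_left_cancel' (by positivity : 2 ^ e ≠ 0) h4
      exact Nat.ModEq.cancel_right_of_coprime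
        (Nat.Coprime.pow_left _ (Nat.coprime_two_left.2 hc)) h6
    have h6 := hs1_inj P d G (w - e) (x y) (x y') hd hd2 hG (hxm y) (hxm y') h5
    have h7 : x y = x y' := by
      have e1 := Nat.div_add_mod (x y) (2 ^ (w - e - G))
      have e2 := Nat.div_add_mod (x y') (2 ^ (w - e - G))
      have e3 : x y % 2 ^ (w - e - G) = x y' % 2 ^ (w - e - G) := h6
      rw [← e1, ← e2, h2, e3]
    have h8 : 2 ^ u + 2 ^ (G + 1) * y + 1 = 2 ^ u + 2 ^ (G + 1) * y' + 1 := h7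
    exact Nat.eq_of_mul_eq_mul_left (by positivity : 0 < 2 ^ (G + 1)) (by omega)

end Pool.Agent.Lib.MP_8fac0f_nt.OW
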