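import Pool.Agent.Lib.MP_8fac0f_nt.OW.Fac

/-!
# The product over the vertices of a cube
-/

set_option autoImplicit false

namespace Pool.Agent.Lib.MP_8fac0f_nt.OW

open Finset N OV

/-- The product over the vertices of the cube. -/
noncomputable def Cb (J m : ℕ) (δ : ℕ → ℕ) (φ : ℕ → ℝ) : ℝ :=
  ∏ T ∈ (range J).powerset, φ (m + ∑ i ∈ T, δ i)

theorem Cb_mul (J m : ℕ) (δ : ℕ → ℕ) (φ ψ : ℕ → ℝ) :
    Cb J m δ (fun x => φ x * ψ x) = Cb J m δ φ * Cb J m δ ψ := prod_mul_distrib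

theorem Cb_prod (J m : ℕ) (δ : ℕ → ℕ) (s : Finset ℕ) (φ : ℕ → ℕ → ℝ) :
    Cb J m δ (fun x => ∏ i ∈ s, φ i x) = ∏ i ∈ s, Cb J m δ (φ i) := prod_comm

theorem Cb_inv (J m : ℕ) (δ : ℕ → ℕ) (φ : ℕ → ℝ) (i : ℕ) (hi : i < J) (hφ : ∀ x, φ x * φ x = 1)
    (h : ∀ T ⊆ range J, i ∉ T → φ (m + ∑ i ∈ T, δ i + δ i) = φ (m + ∑ i ∈ T, δ i)) :
    Cb J m δ φ = 1 := by
  unfold Cb
  have hr : insert i ((range J).erase i) = range J := insert_erase (mem_range.2 hi)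
  rw [← hr, prod_powerset_insert (notMem_erase _ _), ← prod_mul_distrib]
  refine prod_eq_one fun T hT => ?_
  have hT' := mem_powerset.1 hT
  have hiT : i ∉ T := fun h => notMem_erase i _ (hT' h)
  rw [sum_insert hiT]
  have h1 := h T (hT'.trans (erase_subset _ _)) hiT
  rw [add_comm (δ i), ← add_assoc, h1]
  exact hφ _

/-- The blocks. -/
def bb (A : ℕ → ℕ) (x l : ℕ) : ℕ := A l * x ^ l

/-- No carries. -/
def ok (A : ℕ → ℕ) (n J h k v v' x : ℕ) : Prop :=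
  (∀ l, 2 ≤ l → l ≤ n + 2 → bb A x l % 2 ^ (J * h) + 2 ^ (J * h - v) < 2 ^ (J * h)) ∧
  (∀ l, 1 ≤ l → l ≤ n + 1 → bb A x l % 2 ^ k + 2 ^ (k - v') ≤ 2 ^ k) ∧
  (∀ j, (j = k ∨ j = k + 1) → ∀ l, 2 ≤ l → l ≤ n + 2 → ∀ q < J,
    V (bb A x) j l % 2 ^ (j * l + q * h) + 2 ^ (j * l + q * h - v') ≤ 2 ^ (j * l + q * h))

theorem step_zone (b b' u : ℕ → ℕ) (j l a c : ℕ) (hb : ∀ l', b' l' = b l' + 2 ^ (a + c) * u l')
    (he : V b j l % 2 ^ (j * l + a) + ∑ l' ∈ range l, 2 ^ (a + c) * u l' * 2 ^ (j * l') <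
      2 ^ (j * l + a)) :
    yy b' j l / 2 ^ a % 2 ^ c = yy b j l / 2 ^ a % 2 ^ c := by
  have h1 : V b' j l = V b j l + ∑ l' ∈ range l, 2 ^ (a + c) * u l' * 2 ^ (j * l') +
      2 ^ (j * l + a + c) * u l := by
    have h2 : V b' j l = V b j l + ∑ l' ∈ range (l + 1), 2 ^ (a + c) * u l' * 2 ^ (j * l') := by
      unfold V
      rw [← sum_add_distrib]
      refine sum_congr rfl fun l' _ => ?_
      rw [hb]; ring
    have h3 : 2 ^ (j * l + a + c) = 2 ^ (a + c) * 2 ^ (j * l) := by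
      rw [← pow_add]; congr 1; ring
    rw [h2, sum_range_succ, h3]
    ring
  rw [← yy_eq, ← yy_eq, Nat.div_div_eq_div_mul, Nat.div_div_eq_div_mul, ← pow_add, h1]
  exact zone_inv _ _ _ _ _ he

theorem err_bound (u : ℕ → ℕ) (j l a c D v' : ℕ) (hl : 1 ≤ l)
    (hu : ∀ l' < l, 2 ^ (a + c) * u l' ≤ 2 ^ (D + (a + c))) (hj : D + c + l + v' ≤ j) :
    ∑ l' ∈ range l, 2 ^ (a + c) * u l' * 2 ^ (j * l') < 2 ^ (j * l + a - v') := by
  obtain ⟨p, rfl⟩ : ∃ p, l = p + 1 := ⟨l - 1, by omega⟩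
  calc ∑ l' ∈ range (p + 1), 2 ^ (a + c) * u l' * 2 ^ (j * l')
      ≤ ∑ _l' ∈ range (p + 1), 2 ^ (D + (a + c)) * 2 ^ (j * p) := by
        refine sum_le_sum fun l' hl' => ?_
        have hl'' := mem_range.1 hl'
        exact Nat.mul_le_mul (hu l' hl'')
          (Nat.pow_le_pow_right (by norm_num) (Nat.mul_le_mul_left _ (by omega)))
    _ = (p + 1) * 2 ^ (D + (a + c) + j * p) := by
        rw [sum_const, card_range, smul_eq_mul, ← pow_add]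
    _ < 2 ^ (p + 1) * 2 ^ (D + (a + c) + j * p) :=
        Nat.mul_lt_mul_of_pos_right Nat.lt_two_pow_self (by positivity)
    _ = 2 ^ (p + 1 + (D + (a + c) + j * p)) := (pow_add _ _ _).symm
    _ ≤ 2 ^ (j * (p + 1) + a - v') := by
        refine Nat.pow_le_pow_right (by norm_num) ?_
        have e1 : j * (p + 1) = j * p + j := by ring
        omega

theorem zone_step (A : ℕ → ℕ) (n J h k v v' D x y q j l : ℕ) (u : ℕ → ℕ) (hq : q < J)
    (hu0 : u 0 = 0) (hb : ∀ l', bb A y l' = bb A x l' + 2 ^ (q * h + h) * u l')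
    (hu : ∀ l' ≤ n + 1, 2 ^ (q * h + h) * u l' ≤ 2 ^ (D + (q * h + h)))
    (hj : j = k ∨ j = k + 1) (hk : D + h + (n + 2) + v' ≤ k) (hok : ok A n J h k v v' x)
    (hl1 : 1 ≤ l) (hl : l ≤ n + 2) :
    yy (bb A y) j l / 2 ^ (q * h) % 2 ^ h = yy (bb A x) j l / 2 ^ (q * h) % 2 ^ h := by
  refine step_zone (bb A x) (bb A y) u j l (q * h) h hb ?_
  rcases Nat.lt_or_ge 1 l with h1 | h1
  · have h2 := hok.2.2 j hj l h1 hl q hq
    have h3 := err_bound u j l (q * h) h D v' hl1 (fun l' hl' => hu l' (by omega)) (by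
      rcases hj with rfl | rfl <;> omega)
    omega
  · have h2 : l = 1 := by omega
    subst h2
    rw [sum_range_one, hu0, mul_zero, zero_mul, add_zero]
    exact Nat.mod_lt _ (by positivity)

theorem bit_step (b b' e k : ℕ) (hb : b' = b + e) (h : b % 2 ^ k + e < 2 ^ k) :
    b' / 2 ^ k = b / 2 ^ k := by
  have h1 : b' = e + b := by omega
  rw [h1]
  exact div_low e b k (by omega)

/-- The carry out of the first overlap. -/
def cc (A : ℕ → ℕ) (w j x : ℕ) : ℕ := if A 0 / 2 ^ j + bb A x 1 % 2 ^ w < 2 ^ w then 0 else 1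

theorem cc_spec (A : ℕ → ℕ) (w j x : ℕ) (h : A 0 / 2 ^ j < 2 ^ w) :
    yy (bb A x) j 1 / 2 ^ w = bb A x 1 / 2 ^ w + cc A w j x := by
  have h0 : yy (bb A x) j 1 = A 0 / 2 ^ j + bb A x 1 := by
    change bb A x 0 / 2 ^ j + bb A x 1 = _
    unfold bb
    rw [pow_zero, mul_one]
  rw [h0]
  unfold cc
  split_ifs with h1
  · rw [add_zero]; exact div_low _ _ _ h1
  · have h2 := Nat.div_add_mod (bb A x 1) (2 ^ w)
    have h3 : bb A x 1 % 2 ^ w < 2 ^ w := Nat.mod_lt _ (by positivity)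
    have h4 : 2 ^ w * (bb A x 1 / 2 ^ w + 1) = 2 ^ w * (bb A x 1 / 2 ^ w) + 2 ^ w := by ring
    have h5 : A 0 / 2 ^ j + bb A x 1 = (A 0 / 2 ^ j + bb A x 1 % 2 ^ w - 2 ^ w) +
        2 ^ w * (bb A x 1 / 2 ^ w + 1) := by omega
    rw [h5, Nat.add_mul_div_left _ _ (by positivity), Nat.div_eq_of_lt (by omega), zero_add]

theorem cc_le (A : ℕ → ℕ) (w j x : ℕ) : cc A w j x ≤ 1 := by
  unfold cc; split_ifs <;> omega

end Pool.Agent.Lib.MP_8fac0f_nt.OW
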