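import Pool.Agent.Lib.MP_8fac0f_nt.OW.Cube

/-!
# The product over the cube is -1
-/

set_option autoImplicit false

namespace Pool.Agent.Lib.MP_8fac0f_nt.OW

open Finset N OV

theorem exists_u (A : ℕ → ℕ) (x e s c : ℕ) (he : e = 2 ^ s * c) :
    ∃ u : ℕ → ℕ, u 0 = 0 ∧ ∀ l, bb A (x + e) l = bb A x l + 2 ^ s * u l := by
  have hle : ∀ l, bb A x l ≤ bb A (x + e) l := fun l =>
    Nat.mul_le_mul_left _ (Nat.pow_le_pow_left (Nat.le_add_right _ _) l)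
  have hmod : x ≡ x + e [MOD 2 ^ s] := by
    have h1 : x + 0 ≡ x + e [MOD 2 ^ s] :=
      Nat.ModEq.add_left x (Nat.modEq_zero_iff_dvd.2 (he ▸ Dvd.intro _ rfl)).symm
    rwa [add_zero] at h1
  refine ⟨fun l => (bb A (x + e) l - bb A x l) / 2 ^ s, ?_, fun l => ?_⟩
  · have h0 : bb A (x + e) 0 = bb A x 0 := by unfold bb; rw [pow_zero, pow_zero]
    change (bb A (x + e) 0 - bb A x 0) / 2 ^ s = 0
    rw [h0, Nat.sub_self, Nat.zero_div]
  · have h1 : bb A x l ≡ bb A (x + e) l [MOD 2 ^ s] := (hmod.pow l).mul_left (A l)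
    have h2 := (Nat.modEq_iff_dvd' (hle l)).1 h1
    have h3 := Nat.mul_div_cancel' h2
    have h4 := hle l
    change bb A (x + e) l = bb A x l + 2 ^ s * ((bb A (x + e) l - bb A x l) / 2 ^ s)
    omega

/-- The part of the carries out of the first overlap. -/
noncomputable def psi (A : ℕ → ℕ) (w k x : ℕ) : ℝ :=
  sg (bb A x 1 / 2 ^ w % 2 ^ (k - w) + cc A w k x) *
    sg (bb A x 1 / 2 ^ w % 2 ^ (k - w) + cc A w (k + 1) x)

theorem psi_prod (A : ℕ → ℕ) (J w k α A' g t m : ℕ) (δ : ℕ → ℕ) (hJ : 1 ≤ J)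
    (hδ0 : δ 0 = 2 ^ w * g) (hk : w + α + 2 ≤ k)
    (hA1 : A 1 = 2 ^ α * A') (hg : A' * g % 4 = 1) (ht : A 0 / 2 ^ k = t)
    (hm1 : 2 ^ (w + α) - t ≤ A 1 * m % 2 ^ (w + α + 2))
    (hm2 : A 1 * m % 2 ^ (w + α + 2) < 2 ^ (w + α) - t / 2) (htw : t < 2 ^ w)
    (hD : ∀ T ⊆ range J, (∃ i ∈ T, 1 ≤ i) → t ≤ A 1 * (∑ i ∈ T, δ i) % 2 ^ w ∧
      A 1 * (∑ i ∈ T, δ i) % 2 ^ w + t ≤ 2 ^ w) :
    Cb J m δ (psi A w k) = -1 := by
  have p1 : 0 < 2 ^ w := by positivity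
  have ht2 : A 0 / 2 ^ (k + 1) = t / 2 := by
    rw [pow_succ, ← Nat.div_div_eq_div_mul, ht]
  have hbt : t / 2 ≤ t := Nat.div_le_self _ _
  -- the residue of the first block
  have pα : 0 < 2 ^ α := by positivity
  have e1 : 2 ^ (w + α) = 2 ^ w * 2 ^ α := pow_add 2 w α
  have e2 : 2 ^ (w + α + 2) = 2 ^ w * 2 ^ (α + 2) := by rw [add_assoc, pow_add]
  have e3 : 2 ^ w * 2 ^ α = 2 ^ w * (2 ^ α - 1) + 2 ^ w := by
    obtain ⟨z, hz⟩ : ∃ z, 2 ^ α = z + 1 := ⟨2 ^ α - 1, by omega⟩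
    rw [hz, Nat.add_sub_cancel]; ring
  set y := A 1 * m % 2 ^ (w + α + 2) with hy
  have hydiv : y / 2 ^ w = 2 ^ α - 1 := by
    have e4 : (2 ^ α - 1) * 2 ^ w = 2 ^ w * (2 ^ α - 1) := mul_comm _ _
    have e5 : (2 ^ α - 1 + 1) * 2 ^ w = 2 ^ w * (2 ^ α - 1) + 2 ^ w := by ring
    refine Nat.div_eq_of_lt_le ?_ ?_
    · rw [e4]; omega
    · rw [e5]; omega
  have hymod : y % 2 ^ w = A 1 * m % 2 ^ w := by
    rw [hy, e2]
    exact Nat.mod_mod_of_dvd _ (Dvd.intro _ rfl)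
  have hyy := Nat.div_add_mod y (2 ^ w)
  rw [hydiv, hymod] at hyy
  have hr1 : 2 ^ w ≤ t + A 1 * m % 2 ^ w := by omega
  have hr2 : t / 2 + A 1 * m % 2 ^ w < 2 ^ w := by omega
  have hSy : A 1 * m / 2 ^ w % 2 ^ (α + 2) = 2 ^ α - 1 := by
    rw [← hydiv, hy, e2, Nat.mod_mul_right_div_self]
  have hS'y : A 1 * (m + 2 ^ w * g) / 2 ^ w % 2 ^ (α + 2) = 2 ^ (α + 1) - 1 := by
    have h1 : A 1 * (m + 2 ^ w * g) = A 1 * m + 2 ^ w * (2 ^ α * (A' * g)) := by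
      rw [mul_add, hA1]; ring
    rw [h1, Nat.add_mul_div_left _ _ p1, Nat.add_mod, hSy]
    have h2 : 2 ^ α * (A' * g) % 2 ^ (α + 2) = 2 ^ α := by
      have h3 : A' * g = 4 * (A' * g / 4) + 1 := by omega
      have h4 : 2 ^ α * (A' * g) = 2 ^ α + 2 ^ (α + 2) * (A' * g / 4) := by
        calc 2 ^ α * (A' * g) = 2 ^ α * (4 * (A' * g / 4) + 1) := by rw [← h3]
          _ = _ := by ring
      rw [h4, Nat.add_mul_mod_self_left, Nat.mod_eq_of_lt]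
      exact Nat.pow_lt_pow_right (by norm_num) (by omega)
    rw [h2, Nat.mod_eq_of_lt]
    · have : 2 ^ (α + 1) = 2 * 2 ^ α := by ring
      omega
    · have : 2 ^ (α + 2) = 4 * 2 ^ α := by ring
      omega
  have hmodk : ∀ z : ℕ, z / 2 ^ w % 2 ^ (k - w) % 2 ^ (α + 2) = z / 2 ^ w % 2 ^ (α + 2) :=
    fun z => Nat.mod_mod_of_dvd _ (pow_dvd_pow 2 (by omega))
  -- the values at the vertices
  have hb1 : ∀ x, bb A x 1 = A 1 * x := fun x => by unfold bb; rw [pow_one]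
  have hval : ∀ x, A 1 * x % 2 ^ w = A 1 * m % 2 ^ w →
      psi A w k x = sg (A 1 * x / 2 ^ w % 2 ^ (k - w) + 1) * sg (A 1 * x / 2 ^ w % 2 ^ (k - w)) :=
    fun x hx => by
    unfold psi cc
    rw [hb1, ht, ht2, hx, if_neg (by omega), if_pos hr2, add_zero]
  have hv0 : psi A w k m * psi A w k (m + δ 0) = -1 := by
    rw [hval m rfl, hval (m + δ 0) (by
      rw [hδ0, mul_add, mul_left_comm, Nat.add_mul_mod_self_left]), hδ0]
    have h7 := sg_pair α (A 1 * m / 2 ^ w % 2 ^ (k - w))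
      (A 1 * (m + 2 ^ w * g) / 2 ^ w % 2 ^ (k - w)) (by rw [hmodk, hSy]) (by rw [hmodk, hS'y])
    rw [h7]
    have h8 := sg_sq (A 1 * (m + 2 ^ w * g) / 2 ^ w % 2 ^ (k - w) + 1)
    have h9 := sg_sq (A 1 * (m + 2 ^ w * g) / 2 ^ w % 2 ^ (k - w))
    linear_combination (-1 : ℝ) * (sg (A 1 * (m + 2 ^ w * g) / 2 ^ w % 2 ^ (k - w)) *
      sg (A 1 * (m + 2 ^ w * g) / 2 ^ w % 2 ^ (k - w))) * h8 - h9
  have hvT : ∀ T ⊆ range J, (∃ i ∈ T, 1 ≤ i) → psi A w k (m + ∑ i ∈ T, δ i) = 1 := by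
    intro T hT hi
    obtain ⟨h1, h2⟩ := hD T hT hi
    have h3 : A 1 * (m + ∑ i ∈ T, δ i) % 2 ^ w =
        A 1 * m % 2 ^ w + A 1 * (∑ i ∈ T, δ i) % 2 ^ w - 2 ^ w := by
      rw [mul_add, Nat.add_mod]
      have h4 : A 1 * m % 2 ^ w < 2 ^ w := Nat.mod_lt _ p1
      have h5 : A 1 * (∑ i ∈ T, δ i) % 2 ^ w < 2 ^ w := Nat.mod_lt _ p1
      rw [Nat.mod_eq_sub_mod (by omega), Nat.mod_eq_of_lt (by omega)]
    unfold psi cc
    rw [hb1, ht, ht2, h3, if_pos (by omega), if_pos (by omega)]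
    exact sg_sq _
  unfold Cb
  have h0J : (0 : ℕ) ∈ range J := mem_range.2 hJ
  rw [prod_eq_mul (∅ : Finset ℕ) {0} (singleton_ne_empty 0).symm]
  · rw [sum_empty, sum_singleton, add_zero]
    exact hv0
  · intro T hT hne
    refine hvT T (mem_powerset.1 hT) ?_
    by_contra hcon
    have h1 : T ⊆ {0} := fun i hi => by
      rw [mem_singleton]
      by_contra h2
      exact hcon ⟨i, hi, by omega⟩
    rcases subset_singleton_iff.1 h1 with h2 | h2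
    · exact hne.1 h2
    · exact hne.2 h2
  · intro h
    exact absurd (mem_powerset.2 (empty_subset _)) h
  · intro h
    exact absurd (mem_powerset.2 (singleton_subset_iff.2 h0J)) h

theorem cube (A : ℕ → ℕ) (n J h k v v' D α A' g t m : ℕ) (δ : ℕ → ℕ) (hJ : 1 ≤ J)
    (hδ0 : δ 0 = 2 ^ (J * h) * g) (hδ : ∀ i, i < J → ∃ c, δ i = 2 ^ ((J - i) * h) * c)
    (hk1 : D + h + (n + 2) + v' + 1 ≤ k) (hk2 : v' + J * h + α + 3 ≤ k)
    (hA1 : A 1 = 2 ^ α * A') (hg : A' * g % 4 = 1) (ht : A 0 / 2 ^ k = t)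
    (hm1 : 2 ^ (J * h + α) - t ≤ A 1 * m % 2 ^ (J * h + α + 2))
    (hm2 : A 1 * m % 2 ^ (J * h + α + 2) < 2 ^ (J * h + α) - t / 2) (htw : t < 2 ^ (J * h))
    (hD : ∀ T ⊆ range J, (∃ i ∈ T, 1 ≤ i) → t ≤ A 1 * (∑ i ∈ T, δ i) % 2 ^ (J * h) ∧
      A 1 * (∑ i ∈ T, δ i) % 2 ^ (J * h) + t ≤ 2 ^ (J * h))
    (hok : ∀ T ⊆ range J, ok A n J h k v v' (m + ∑ i ∈ T, δ i))
    (hΔ : ∀ T ⊆ range J, ∀ i < J, ∀ l ≤ n + 1, bb A (m + ∑ i ∈ T, δ i + δ i) l ≤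
      bb A (m + ∑ i ∈ T, δ i) l + 2 ^ (D + (J - i) * h))
    (htop : ∀ T ⊆ range J, ∀ j, (j = k ∨ j = k + 1) → ∀ l, 1 ≤ l → l ≤ n + 1 →
      yy (bb A (m + ∑ i ∈ T, δ i)) j l / 2 ^ j < 2 ^ (J * h - v)) :
    Cb J m δ (fun x => sg (V (bb A x) k (n + 2)) * sg (V (bb A x) (k + 1) (n + 2))) = -1 := by
  have hfac : Cb J m δ (fun x => sg (V (bb A x) k (n + 2)) * sg (V (bb A x) (k + 1) (n + 2))) =
      Cb J m δ (fun x => (sg (bb A x 0 % 2 ^ k) * sg (bb A x 0 % 2 ^ (k + 1))) *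
      (∏ l ∈ range (n + 2), Wf J h (yy (bb A x) k (l + 1)) * Wf J h (yy (bb A x) (k + 1) (l + 1))) *
      (∏ l ∈ range (n + 1), sg (bb A x (l + 1) / 2 ^ k % 2)) * psi A (J * h) k x) := by
    unfold Cb
    refine prod_congr rfl fun T hT => ?_
    have hT' := mem_powerset.1 hT
    have hokT := hok T hT'
    have htopT := htop T hT'
    generalize m + ∑ i ∈ T, δ i = x at hokT htopT
    have hS : bb A x 1 / 2 ^ (J * h) % 2 ^ (k - J * h) + 1 < 2 ^ (k - J * h) := by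
      have h1 := hokT.2.1 1 le_rfl (by omega)
      have e0 : 2 ^ k = 2 ^ (J * h) * 2 ^ (k - J * h) := by rw [← pow_add]; congr 1; omega
      have h2 : bb A x 1 / 2 ^ (J * h) % 2 ^ (k - J * h) = bb A x 1 % 2 ^ k / 2 ^ (J * h) := by
        rw [e0, Nat.mod_mul_right_div_self]
      have h3 : 2 ^ (J * h) < 2 ^ (k - v') := Nat.pow_lt_pow_right (by norm_num) (by omega)
      rw [h2]
      have h4 : bb A x 1 % 2 ^ k / 2 ^ (J * h) * 2 ^ (J * h) ≤ bb A x 1 % 2 ^ k :=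
        Nat.div_mul_le_self _ _
      by_contra hcon
      have h5 : 2 ^ (k - J * h) ≤ bb A x 1 % 2 ^ k / 2 ^ (J * h) + 1 := not_lt.1 hcon
      have h6 := Nat.mul_le_mul_left (2 ^ (J * h)) h5
      rw [← e0, mul_add, mul_one, mul_comm (2 ^ (J * h)) (bb A x 1 % 2 ^ k / 2 ^ (J * h))] at h6
      omega
    have hcc : ∀ j, cc A (J * h) j x ≤ 1 := fun j => cc_le A (J * h) j x
    have ht2 : A 0 / 2 ^ (k + 1) ≤ t := by
      rw [pow_succ, ← Nat.div_div_eq_div_mul, ht]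
      exact Nat.div_le_self _ _
    beta_reduce
    rw [fac (bb A x) n J h k (cc A (J * h) k x) (cc A (J * h) (k + 1) x) (by omega) ?_ ?_ ?_ ?_ ?_]
    · rfl
    · intro j hj l hl1 hl2
      have h1 := htopT j hj l hl1 hl2
      have h2 := hokT.1 (l + 1) (by omega) (by omega)
      omega
    · have := hcc k
      omega
    · have := hcc (k + 1)
      omega
    · exact cc_spec A (J * h) k x (by rw [ht]; exact htw)
    · exact cc_spec A (J * h) (k + 1) x (lt_of_le_of_lt ht2 htw)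
  rw [hfac, Cb_mul, Cb_mul, Cb_mul, Cb_prod, Cb_prod,
    psi_prod A J (J * h) k α A' g t m δ hJ hδ0 (by omega) hA1 hg ht hm1 hm2 htw hD]
  -- the increments
  have hinc : ∀ T ⊆ range J, ∀ q < J, ∃ u : ℕ → ℕ, u 0 = 0 ∧
      (∀ l, bb A (m + ∑ i ∈ T, δ i + δ (J - 1 - q)) l =
        bb A (m + ∑ i ∈ T, δ i) l + 2 ^ (q * h + h) * u l) ∧
      ∀ l ≤ n + 1, 2 ^ (q * h + h) * u l ≤ 2 ^ (D + (q * h + h)) := by
    intro T hT q hq
    obtain ⟨c, hc⟩ := hδ (J - 1 - q) (by omega)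
    have e1 : (J - (J - 1 - q)) * h = q * h + h := by
      have : J - (J - 1 - q) = q + 1 := by omega
      rw [this]; ring
    rw [e1] at hc
    obtain ⟨u, hu0, hu⟩ := exists_u A (m + ∑ i ∈ T, δ i) (δ (J - 1 - q)) (q * h + h) c hc
    refine ⟨u, hu0, hu, fun l hl => ?_⟩
    have h1 := hΔ T hT (J - 1 - q) (by omega) l hl
    rw [hu l, e1] at h1
    omega
  have hK : Cb J m δ (fun x => sg (bb A x 0 % 2 ^ k) * sg (bb A x 0 % 2 ^ (k + 1))) = 1 := by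
    have hb0 : ∀ x, bb A x 0 = A 0 := fun x => by unfold bb; rw [pow_zero, mul_one]
    refine Cb_inv J m δ _ 0 hJ (fun x => ?_) (fun T _ _ => ?_)
    · have h1 := sg_sq (bb A x 0 % 2 ^ k)
      have h2 := sg_sq (bb A x 0 % 2 ^ (k + 1))
      linear_combination (sg (bb A x 0 % 2 ^ (k + 1)) * sg (bb A x 0 % 2 ^ (k + 1))) * h1 + h2
    · simp only [hb0]
  have hW : ∀ j, (j = k ∨ j = k + 1) → ∀ l ∈ range (n + 2),
      Cb J m δ (fun x => Wf J h (yy (bb A x) j (l + 1))) = 1 := by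
    intro j hj l hl
    have hl' := mem_range.1 hl
    unfold Wf
    rw [Cb_prod J m δ (range J) (fun q x => sg (yy (bb A x) j (l + 1) / 2 ^ (q * h) % 2 ^ h))]
    refine prod_eq_one fun q hq => ?_
    have hq' := mem_range.1 hq
    refine Cb_inv J m δ _ (J - 1 - q) (by omega) (fun x => sg_sq _) (fun T hT _ => ?_)
    obtain ⟨u, hu0, hu, hub⟩ := hinc T hT q hq'
    rw [zone_step A n J h k v v' D (m + ∑ i ∈ T, δ i) (m + ∑ i ∈ T, δ i + δ (J - 1 - q)) q j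
      (l + 1) u hq' hu0 hu hub hj (by omega) (hok T hT) (by omega) (by omega)]
  have hB : ∀ l ∈ range (n + 1),
      Cb J m δ (fun x => sg (bb A x (l + 1) / 2 ^ k % 2)) = 1 := by
    intro l hl
    have hl' := mem_range.1 hl
    refine Cb_inv J m δ _ (J - 1) (by omega) (fun x => sg_sq _) (fun T hT _ => ?_)
    obtain ⟨u, hu0, hu, hub⟩ := hinc T hT 0 (by omega)
    rw [Nat.sub_zero] at hu
    have h1 := (hok T hT).2.1 (l + 1) (by omega) (by omega)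
    have h2 := hub (l + 1) (by omega)
    have h3 : 2 ^ (D + (0 * h + h)) < 2 ^ (k - v') :=
      Nat.pow_lt_pow_right (by norm_num) (by rw [zero_mul]; omega)
    rw [bit_step _ _ _ k (hu (l + 1)) (by omega)]
  rw [hK, prod_congr rfl (fun l hl => by rw [Cb_mul, hW k (Or.inl rfl) l hl,
    hW (k + 1) (Or.inr rfl) l hl]), prod_congr rfl hB]
  simp

end Pool.Agent.Lib.MP_8fac0f_nt.OW
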