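import Pool.Agent.Lib.MP_8fac0f_nt.OW.Cube
import Pool.Agent.Lib.MP_8fac0f_nt.OW.Cnt2

/-!
# Few exceptional arguments
-/

set_option autoImplicit false

namespace Pool.Agent.Lib.MP_8fac0f_nt.OW

open Finset N OV

theorem yy_top (b : ℕ → ℕ) (n j k w v : ℕ) (hkj : k ≤ j) (h0 : b 0 / 2 ^ j < 2 ^ w)
    (hb : ∀ l, 1 ≤ l → l ≤ n + 1 → b l < 2 ^ k * 2 ^ (w - (v + 1))) (hv : v + 1 ≤ k)
    (hvw : v + 1 ≤ w) : ∀ l, 1 ≤ l → l ≤ n + 1 → yy b j l / 2 ^ j < 2 ^ (w - v) := by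
  have hdd : 2 ^ (w - v) = 2 * 2 ^ (w - (v + 1)) := by
    rw [← pow_succ']; congr 1; omega
  have hdiv : ∀ y, y < 2 ^ k * 2 ^ (w - v) → y / 2 ^ j < 2 ^ (w - v) := fun y hy =>
    Nat.div_lt_of_lt_mul (hy.trans_le (Nat.mul_le_mul_right _
      (Nat.pow_le_pow_right (by norm_num) hkj)))
  have key : ∀ l, 1 ≤ l → l ≤ n + 1 → yy b j l < 2 ^ k * 2 ^ (w - v) := by
    intro l hl1
    induction l, hl1 using Nat.le_induction with
    | base =>
      intro hl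
      have h1 := hb 1 le_rfl hl
      have h2 : yy b j 1 = b 0 / 2 ^ j + b 1 := rfl
      have h3 : 2 ^ w ≤ 2 ^ k * 2 ^ (w - (v + 1)) := by
        rw [← pow_add]; exact Nat.pow_le_pow_right (by norm_num) (by omega)
      rw [h2, hdd]
      have h4 : 2 ^ k * (2 * 2 ^ (w - (v + 1))) = 2 * (2 ^ k * 2 ^ (w - (v + 1))) := by ring
      omega
    | succ l hl1 ih =>
      intro hl
      have h1 := hb (l + 1) (by omega) hl
      have h2 : yy b j (l + 1) = yy b j l / 2 ^ j + b (l + 1) := rfl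
      have h3 := hdiv _ (ih (by omega))
      have h5 : 2 ^ (w - v) ≤ 2 ^ k * 2 ^ (w - (v + 1)) := by
        rw [← pow_add]; exact Nat.pow_le_pow_right (by norm_num) (by omega)
      rw [h2]
      have h4 : 2 ^ k * 2 ^ (w - v) = 2 * (2 ^ k * 2 ^ (w - (v + 1))) := by rw [hdd]; ring
      omega
  exact fun l hl1 hl => hdiv _ (key l hl1 hl)

theorem V_mono (b b' : ℕ → ℕ) (j n : ℕ) (h : ∀ l, b l ≤ b' l) : V b j n ≤ V b' j n :=
  sum_le_sum fun l _ => Nat.mul_le_mul_right _ (h l)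

/-- The third kind of exceptions. -/
theorem exc3 (A : ℕ → ℕ) (n v vp x μ1 j l a w T : ℕ) (hl : l ≤ n)
    (hAl : ∀ l ≤ n + 2, x ^ (n + 2 - l) ≤ A l) (hx : 2 ^ μ1 ≤ x)
    (haw : a ≤ w) (hT : j = μ1 * (n + 1) + T) (hvT : vp ≤ T)
    (htop : ∀ m, m < 2 ^ (μ1 + 2) → yy (bb A m) j (l + 1) / 2 ^ j < 2 ^ (w - v)) :
    ((Ico (2 ^ μ1) (2 ^ (μ1 + 2))).filter fun m =>
      2 ^ (j * (l + 2) + a) < V (bb A m) j (l + 2) % 2 ^ (j * (l + 2) + a) +
        2 ^ (j * (l + 2) + a - vp)).card ≤ 2 ^ (w + 2 + (T - vp)) := by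
  set c : ℕ → ℕ := fun m => V (bb A m) j (l + 1) + 2 ^ (j * (l + 2)) * (bb A m (l + 2) % 2 ^ a)
    with hc
  have hcm : ∀ m, V (bb A m) j (l + 2) % 2 ^ (j * (l + 2) + a) = c m % 2 ^ (j * (l + 2) + a) := by
    intro m
    rw [V_last]
    have h1 : V (bb A m) j (l + 1) + 2 ^ (j * (l + 1 + 1)) * bb A m (l + 1 + 1) =
        c m + 2 ^ (j * (l + 2) + a) * (bb A m (l + 2) / 2 ^ a) := by
      have h2 := Nat.div_add_mod (bb A m (l + 2)) (2 ^ a)
      calc V (bb A m) j (l + 1) + 2 ^ (j * (l + 1 + 1)) * bb A m (l + 1 + 1)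
          = V (bb A m) j (l + 1) + 2 ^ (j * (l + 2)) *
            (2 ^ a * (bb A m (l + 2) / 2 ^ a) + bb A m (l + 2) % 2 ^ a) := by rw [h2]
        _ = _ := by rw [hc, pow_add]; ring
    rw [h1, Nat.add_mul_mod_self_left]
  simp only [hcm]
  have hjT : T ≤ j := by omega
  have hbase := near_class c (2 ^ μ1) (2 ^ (μ1 + 2)) (2 ^ (j * (l + 2) + a))
    (2 ^ (j * (l + 2) + a - vp)) (2 ^ (j * (l + 1) + μ1 * (n + 1) + a)) (2 ^ (w + 1 - a)) a
    (by positivity) (by positivity) ?_ ?_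
  · refine hbase.trans ?_
    have e1 : j * (l + 2) = j * (l + 1) + j := by ring
    have h1 : 2 ^ (j * (l + 2) + a - vp) / 2 ^ (j * (l + 1) + μ1 * (n + 1) + a) =
        2 ^ (T - vp) := by
      have e2 : j * (l + 2) + a - vp = j * (l + 1) + μ1 * (n + 1) + a + (T - vp) := by omega
      rw [e2, pow_add]
      exact Nat.mul_div_cancel_left _ (by positivity)
    rw [h1]
    have h2 : 2 ^ (T - vp) + 1 ≤ 2 ^ (T - vp + 1) := by
      have : 2 ^ (T - vp + 1) = 2 * 2 ^ (T - vp) := by ring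
      have h3 : 0 < 2 ^ (T - vp) := by positivity
      omega
    calc 2 ^ a * (2 ^ (w + 1 - a) * (2 ^ (T - vp) + 1))
        ≤ 2 ^ a * (2 ^ (w + 1 - a) * 2 ^ (T - vp + 1)) :=
          Nat.mul_le_mul_left _ (Nat.mul_le_mul_left _ h2)
      _ = 2 ^ (w + 2 + (T - vp)) := by
          rw [← pow_add, ← pow_add]; congr 1; omega
  · intro m m' hm hmm _ hcl
    have h1 : bb A m (l + 2) % 2 ^ a = bb A m' (l + 2) % 2 ^ a :=
      ((show m ≡ m' [MOD 2 ^ a] from hcl).pow (l + 2)).mul_left (A (l + 2))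
    have h2 : 2 ^ a ≤ m' - m :=
      Nat.le_of_dvd (by omega) ((Nat.modEq_iff_dvd' hmm.le).1 hcl)
    have h3 : ∀ i, bb A m i ≤ bb A m' i := fun i =>
      Nat.mul_le_mul_left _ (Nat.pow_le_pow_left hmm.le i)
    have h4 := gap_lower2 A (n + 2) x μ1 m m' (l + 1) (by omega) (by omega)
      (hAl (l + 1) (by omega)) hx hm hmm.le
    have h5 : bb A m (l + 1) + 2 ^ (μ1 * (n + 1)) * 2 ^ a ≤ bb A m' (l + 1) := by
      refine le_trans (Nat.add_le_add_left (Nat.mul_le_mul_left _ h2) _) h4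
    have h6 := V_mono (bb A m) (bb A m') j l h3
    have h7 := Nat.mul_le_mul_left (2 ^ (j * (l + 1))) h5
    have h8 : 2 ^ (j * (l + 1)) * (bb A m (l + 1) + 2 ^ (μ1 * (n + 1)) * 2 ^ a) =
        2 ^ (j * (l + 1)) * bb A m (l + 1) + 2 ^ (j * (l + 1) + μ1 * (n + 1) + a) := by
      rw [pow_add, pow_add]; ring
    simp only [hc]
    rw [V_last, V_last, h1]
    omega
  · intro m _ hm
    have h1 := htop m hm
    rw [← yy_eq, Nat.div_div_eq_div_mul, ← pow_add] at h1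
    have e1 : j * (l + 1) + j = j * (l + 2) := by ring
    rw [e1] at h1
    have h2 : V (bb A m) j (l + 1) < 2 ^ (j * (l + 2)) * 2 ^ (w - v) := by
      have h3 := Nat.lt_mul_div_succ (V (bb A m) j (l + 1)) (by positivity : 0 < 2 ^ (j * (l + 2)))
      exact h3.trans_le (Nat.mul_le_mul_left _ h1)
    have h3 : bb A m (l + 2) % 2 ^ a < 2 ^ a := Nat.mod_lt _ (by positivity)
    refine Nat.div_lt_of_lt_mul ?_
    have e2 : 2 ^ (j * (l + 2) + a) * 2 ^ (w + 1 - a) = 2 ^ (j * (l + 2)) * (2 * 2 ^ w) := by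
      rw [← pow_add, ← pow_succ', ← pow_add]; congr 1; omega
    rw [e2]
    have h4 : 2 ^ (w - v) ≤ 2 ^ w := Nat.pow_le_pow_right (by norm_num) (Nat.sub_le _ _)
    have h5 : 2 ^ a ≤ 2 ^ w := Nat.pow_le_pow_right (by norm_num) haw
    calc c m = V (bb A m) j (l + 1) + 2 ^ (j * (l + 2)) * (bb A m (l + 2) % 2 ^ a) := rfl
      _ < 2 ^ (j * (l + 2)) * 2 ^ (w - v) + 2 ^ (j * (l + 2)) * (bb A m (l + 2) % 2 ^ a) :=
          Nat.add_lt_add_right h2 _
      _ = 2 ^ (j * (l + 2)) * (2 ^ (w - v) + bb A m (l + 2) % 2 ^ a) := by ring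
      _ ≤ 2 ^ (j * (l + 2)) * (2 * 2 ^ w) := Nat.mul_le_mul_left _ (by omega)

open Classical in
theorem exc_count (A : ℕ → ℕ) (n J h k v vp G x μ1 T E1 : ℕ)
    (hAl : ∀ l ≤ n + 2, x ^ (n + 2 - l) ≤ A l) (hx : 2 ^ μ1 ≤ x)
    (hAv : ∀ l ≤ n + 2, ¬ 2 ^ G ∣ A l)
    (hT : k = μ1 * (n + 1) + T) (hvT : vp ≤ T) (hv : v + (n + 2) ≤ J * h)
    (hGw : G + (n + 2) ≤ J * h) (hwμ : J * h ≤ μ1)
    (htop : ∀ m, m < 2 ^ (μ1 + 2) → ∀ j, (j = k ∨ j = k + 1) → ∀ l, 1 ≤ l → l ≤ n + 1 →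
      yy (bb A m) j l / 2 ^ j < 2 ^ (J * h - v))
    (hB : ∀ m, m < 2 ^ (μ1 + 2) → ∀ l, 1 ≤ l → l ≤ n + 1 → bb A m l / 2 ^ k < 2 ^ (J * h))
    (h1 : (J * h - v) + (μ1 + 2 - (J * h - (G + (n + 2)))) ≤ E1)
    (h3 : J * h + 2 + (T + 1 - vp) ≤ E1) :
    ((Ico (2 ^ μ1) (2 ^ (μ1 + 2))).filter fun m => Odd m ∧ ¬ ok A n J h k v vp m).card ≤
      2 ^ (n + J + 3) * 2 ^ E1 := by
  set I := Ico (2 ^ μ1) (2 ^ (μ1 + 2)) with hI
  set B1 : ℕ → Finset ℕ := fun l => (range (2 ^ (μ1 + 2))).filter fun m => Odd m ∧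
    2 ^ (J * h) ≤ A (l + 2) * m ^ (l + 2) % 2 ^ (J * h) + 2 ^ (J * h - v) with hB1
  set B2 : ℕ → Finset ℕ := fun l => I.filter fun m =>
    2 ^ k < bb A m (l + 1) % 2 ^ k + 2 ^ (k - vp) with hB2
  set B3 : ℕ → ℕ × ℕ → Finset ℕ := fun j p => I.filter fun m =>
    2 ^ (j * (p.1 + 2) + p.2 * h) < V (bb A m) j (p.1 + 2) % 2 ^ (j * (p.1 + 2) + p.2 * h) +
      2 ^ (j * (p.1 + 2) + p.2 * h - vp) with hB3
  have c1 : ∀ l ∈ range (n + 1), (B1 l).card ≤ 2 ^ E1 := fun l hl => by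
    have hl' := mem_range.1 hl
    refine (bad_count (A (l + 2)) G (l + 2) (n + 2) (J * h) v (μ1 + 2) (hAv (l + 2) (by omega))
      (by omega) ?_ hv hGw (by omega)).trans ?_
    · exact lt_of_le_of_lt (by omega : l + 2 ≤ n + 2) Nat.lt_two_pow_self
    · rw [← pow_add]
      exact Nat.pow_le_pow_right (by norm_num) h1
  have c2 : ∀ l ∈ range (n + 1), (B2 l).card ≤ 2 ^ E1 := fun l hl => by
    have hl' := mem_range.1 hl
    refine (near_class (fun m => bb A m (l + 1)) (2 ^ μ1) (2 ^ (μ1 + 2)) (2 ^ k) (2 ^ (k - vp))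
      (2 ^ (μ1 * (n + 1))) (2 ^ (J * h)) 0 (by positivity) (by positivity) ?_ ?_).trans ?_
    · intro m m' hm hmm _ _
      have h4 := gap_lower2 A (n + 2) x μ1 m m' (l + 1) (by omega) (by omega)
        (hAl (l + 1) (by omega)) hx hm hmm.le
      refine le_trans (Nat.add_le_add_left ?_ _) h4
      have h5 : 1 ≤ m' - m := by omega
      calc 2 ^ (μ1 * (n + 1)) = 2 ^ (μ1 * (n + 1)) * 1 := (mul_one _).symm
        _ ≤ _ := Nat.mul_le_mul_left _ h5
    · intro m _ hm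
      exact hB m hm (l + 1) (by omega) (by omega)
    · have e1 : 2 ^ (k - vp) / 2 ^ (μ1 * (n + 1)) = 2 ^ (T - vp) := by
        have e2 : k - vp = μ1 * (n + 1) + (T - vp) := by omega
        rw [e2, pow_add]
        exact Nat.mul_div_cancel_left _ (by positivity)
      rw [e1, pow_zero, one_mul]
      have h2 : 2 ^ (T - vp) + 1 ≤ 2 ^ (T - vp + 1) := by
        have : 2 ^ (T - vp + 1) = 2 * 2 ^ (T - vp) := by ring
        have h3 : 0 < 2 ^ (T - vp) := by positivity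
        omega
      refine (Nat.mul_le_mul_left _ h2).trans ?_
      rw [← pow_add]
      exact Nat.pow_le_pow_right (by norm_num) (by omega)
  have c3 : ∀ j, (j = k ∨ j = k + 1) → ∀ p ∈ range (n + 1) ×ˢ range J,
      (B3 j p).card ≤ 2 ^ E1 := fun j hj p hp => by
    obtain ⟨hp1, hp2⟩ := mem_product.1 hp
    have hp1' := mem_range.1 hp1
    have hp2' := mem_range.1 hp2
    have haw : p.2 * h ≤ J * h := Nat.mul_le_mul_right _ hp2'.le
    obtain ⟨T', hT', hTle⟩ : ∃ T', j = μ1 * (n + 1) + T' ∧ vp ≤ T' ∧ T' ≤ T + 1 := by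
      rcases hj with rfl | rfl
      · exact ⟨T, hT, hvT, by omega⟩
      · exact ⟨T + 1, by omega, by omega, le_rfl⟩
    refine (exc3 A n v vp x μ1 j p.1 (p.2 * h) (J * h) T' (by omega) hAl hx haw hT' hTle.1
      (fun m hm => htop m hm j hj (p.1 + 1) (by omega) (by omega))).trans ?_
    exact Nat.pow_le_pow_right (by norm_num) (by omega)
  have hsub : I.filter (fun m => Odd m ∧ ¬ ok A n J h k v vp m) ⊆
      (((range (n + 1)).biUnion B1 ∪ (range (n + 1)).biUnion B2) ∪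
        (range (n + 1) ×ˢ range J).biUnion (B3 k)) ∪
        (range (n + 1) ×ˢ range J).biUnion (B3 (k + 1)) := by
    intro m hm
    obtain ⟨hm1, hm2, hm3⟩ := mem_filter.1 hm
    by_contra hcon
    rw [mem_union, mem_union, mem_union, not_or, not_or, not_or] at hcon
    obtain ⟨⟨⟨g1, g2⟩, g3⟩, g4⟩ := hcon
    refine hm3 ⟨?_, ?_, ?_⟩
    · intro l hl1 hl2
      by_contra h5
      refine g1 (mem_biUnion.2 ⟨l - 2, mem_range.2 (by omega), mem_filter.2
        ⟨mem_range.2 (mem_Ico.1 hm1).2, hm2, ?_⟩⟩)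
      have e1 : l - 2 + 2 = l := by omega
      rw [e1]
      exact not_lt.1 h5
    · intro l hl1 hl2
      by_contra h5
      refine g2 (mem_biUnion.2 ⟨l - 1, mem_range.2 (by omega), mem_filter.2 ⟨hm1, ?_⟩⟩)
      have e1 : l - 1 + 1 = l := by omega
      rw [e1]
      exact not_le.1 h5
    · intro j hj l hl1 hl2 q hq
      by_contra h5
      have e1 : l - 2 + 2 = l := by omega
      rcases hj with rfl | rfl
      · refine g3 (mem_biUnion.2 ⟨(l - 2, q), mem_product.2 ⟨mem_range.2 (by omega),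
          mem_range.2 hq⟩, mem_filter.2 ⟨hm1, ?_⟩⟩)
        simp only [e1]
        exact not_le.1 h5
      · refine g4 (mem_biUnion.2 ⟨(l - 2, q), mem_product.2 ⟨mem_range.2 (by omega),
          mem_range.2 hq⟩, mem_filter.2 ⟨hm1, ?_⟩⟩)
        simp only [e1]
        exact not_le.1 h5
  have hcard := card_le_card hsub
  have d1 := card_biUnion_le_card_mul (range (n + 1)) B1 _ c1
  have d2 := card_biUnion_le_card_mul (range (n + 1)) B2 _ c2
  have d3 := card_biUnion_le_card_mul (range (n + 1) ×ˢ range J) (B3 k) _ (c3 k (Or.inl rfl))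
  have d4 := card_biUnion_le_card_mul (range (n + 1) ×ˢ range J) (B3 (k + 1)) _
    (c3 (k + 1) (Or.inr rfl))
  have u1 := card_union_le (((range (n + 1)).biUnion B1 ∪ (range (n + 1)).biUnion B2) ∪
        (range (n + 1) ×ˢ range J).biUnion (B3 k))
        ((range (n + 1) ×ˢ range J).biUnion (B3 (k + 1)))
  have u2 := card_union_le ((range (n + 1)).biUnion B1 ∪ (range (n + 1)).biUnion B2)
        ((range (n + 1) ×ˢ range J).biUnion (B3 k))
  have u3 := card_union_le ((range (n + 1)).biUnion B1) ((range (n + 1)).biUnion B2)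
  rw [card_range] at d1 d2
  rw [card_product, card_range, card_range] at d3 d4
  have hnum : (n + 1) + (n + 1) + (n + 1) * J + (n + 1) * J ≤ 2 ^ (n + J + 3) := by
    have t1 : n + 1 ≤ 2 ^ (n + 1) := Nat.lt_two_pow_self.le
    have t2 : J ≤ 2 ^ J := Nat.lt_two_pow_self.le
    have t3 : (n + 1) * J ≤ 2 ^ (n + 1) * 2 ^ J := Nat.mul_le_mul t1 t2
    have t4 : 2 ^ (n + 1) ≤ 2 ^ (n + 1) * 2 ^ J := Nat.le_mul_of_pos_right _ (by positivity)
    have t5 : 2 ^ (n + J + 3) = 4 * (2 ^ (n + 1) * 2 ^ J) := by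
      rw [← pow_add]
      have : n + J + 3 = (n + 1 + J) + 2 := by ring
      rw [this, pow_add]; ring
    omega
  calc _ ≤ _ := hcard
    _ ≤ (n + 1) * 2 ^ E1 + (n + 1) * 2 ^ E1 + (n + 1) * J * 2 ^ E1 + (n + 1) * J * 2 ^ E1 := by
        omega
    _ = ((n + 1) + (n + 1) + (n + 1) * J + (n + 1) * J) * 2 ^ E1 := by ring
    _ ≤ _ := Nat.mul_le_mul_right _ hnum

end Pool.Agent.Lib.MP_8fac0f_nt.OW
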