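import Pool.Agent.Lib.MP_8fac0f_nt.OV.Per

/-!
# Digit zones of overlapping blocks
-/

set_option autoImplicit false

namespace Pool.Agent.Lib.MP_8fac0f_nt.OW

open Finset Polynomial N OV

/-- The `l`-th block with the carry from below. -/
def yy (b : ℕ → ℕ) (j : ℕ) : ℕ → ℕ
  | 0 => b 0
  | l + 1 => yy b j l / 2 ^ j + b (l + 1)

theorem V_last (b : ℕ → ℕ) (j n : ℕ) :
    V b j (n + 1) = V b j n + 2 ^ (j * (n + 1)) * b (n + 1) := by
  unfold V
  rw [sum_range_succ _ (n + 1), mul_comm (b (n + 1))]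

theorem chain (b : ℕ → ℕ) (j n : ℕ) : ∀ z, sg (V b j n + 2 ^ (j * (n + 1)) * z) =
    (∏ l ∈ range n, sg (yy b j l % 2 ^ j)) * sg (yy b j n + 2 ^ j * z) := by
  induction n with
  | zero => intro z; rw [V_zero]; simp [yy]
  | succ n ih =>
    intro z
    have h1 : V b j (n + 1) + 2 ^ (j * (n + 1 + 1)) * z =
        V b j n + 2 ^ (j * (n + 1)) * (b (n + 1) + 2 ^ j * z) := by
      rw [V_last]
      have : 2 ^ (j * (n + 1 + 1)) = 2 ^ (j * (n + 1)) * 2 ^ j := by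
        rw [← pow_add]; congr 1
      rw [this]; ring
    rw [h1, ih, prod_range_succ]
    have h2 : yy b j n + 2 ^ j * (b (n + 1) + 2 ^ j * z) =
        2 ^ j * (yy b j (n + 1) + 2 ^ j * z) + yy b j n % 2 ^ j := by
      have h3 := Nat.div_add_mod (yy b j n) (2 ^ j)
      have h4 : 2 ^ j * (yy b j (n + 1) + 2 ^ j * z) =
          2 ^ j * (yy b j n / 2 ^ j) + 2 ^ j * (b (n + 1) + 2 ^ j * z) := by
        change 2 ^ j * (yy b j n / 2 ^ j + b (n + 1) + 2 ^ j * z) = _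
        ring
      omega
    rw [h2, sg_split j _ _ (Nat.mod_lt _ (by positivity))]
    ring

theorem sg_V (b : ℕ → ℕ) (j n : ℕ) :
    sg (V b j n) = (∏ l ∈ range n, sg (yy b j l % 2 ^ j)) * sg (yy b j n) := by
  have h := chain b j n 0
  rwa [mul_zero, mul_zero, add_zero, add_zero] at h

theorem yy_eq (b : ℕ → ℕ) (j n : ℕ) : V b j n / 2 ^ (j * n) = yy b j n := by
  induction n with
  | zero => rw [V_zero, mul_zero, pow_zero, Nat.div_one]; rfl
  | succ n ih =>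
    rw [V_last, Nat.add_mul_div_left _ _ (by positivity)]
    have h1 : 2 ^ (j * (n + 1)) = 2 ^ (j * n) * 2 ^ j := by
      rw [← pow_add]; congr 1
    rw [h1, ← Nat.div_div_eq_div_mul, ih]
    rfl

theorem zsplit (y a c : ℕ) : sg (y % 2 ^ (a + c)) = sg (y % 2 ^ a) * sg (y / 2 ^ a % 2 ^ c) := by
  rw [pow_add, Nat.mod_mul, add_comm, sg_split a _ _ (Nat.mod_lt _ (by positivity))]

theorem split_at (y a : ℕ) : sg y = sg (y % 2 ^ a) * sg (y / 2 ^ a) := by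
  conv_lhs => rw [← Nat.div_add_mod y (2 ^ a)]
  rw [sg_split a _ _ (Nat.mod_lt _ (by positivity))]

/-- The product over the zones of length `h`. -/
noncomputable def Wf (J h y : ℕ) : ℝ := ∏ q ∈ range J, sg (y / 2 ^ (q * h) % 2 ^ h)

theorem zones (J h y : ℕ) : sg (y % 2 ^ (J * h)) = Wf J h y := by
  unfold Wf
  induction J with
  | zero => rw [zero_mul, pow_zero, Nat.mod_one, prod_range_zero, sg_zero]
  | succ J ih => rw [prod_range_succ, ← ih, ← zsplit]; congr 2; ring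

theorem zone_inv (n e u a c : ℕ) (h : n % 2 ^ a + e < 2 ^ a) :
    (n + e + 2 ^ (a + c) * u) / 2 ^ a % 2 ^ c = n / 2 ^ a % 2 ^ c := by
  have h1 : n + e + 2 ^ (a + c) * u = (n % 2 ^ a + e) + 2 ^ a * (n / 2 ^ a + 2 ^ c * u) := by
    have h2 := Nat.div_add_mod n (2 ^ a)
    have h3 : 2 ^ a * (n / 2 ^ a + 2 ^ c * u) = 2 ^ a * (n / 2 ^ a) + 2 ^ (a + c) * u := by
      rw [pow_add]; ring
    omega
  rw [h1, Nat.add_mul_div_left _ _ (by positivity), Nat.div_eq_of_lt h, zero_add,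
    Nat.add_mul_mod_self_left]

theorem div_low (c b w : ℕ) (h : c + b % 2 ^ w < 2 ^ w) : (c + b) / 2 ^ w = b / 2 ^ w := by
  have h1 : c + b = (c + b % 2 ^ w) + 2 ^ w * (b / 2 ^ w) := by
    have := Nat.div_add_mod b (2 ^ w)
    omega
  rw [h1, Nat.add_mul_div_left _ _ (by positivity), Nat.div_eq_of_lt h, zero_add]

theorem pair_bit (z t c0 c1 : ℕ) (h0 : z % 2 ^ t + c0 < 2 ^ t) (h1 : z % 2 ^ t + c1 < 2 ^ t) :
    sg ((z + c0) % 2 ^ t) * sg ((z + c1) % 2 ^ (t + 1)) =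
      sg (z % 2 ^ t + c0) * sg (z % 2 ^ t + c1) * sg (z / 2 ^ t % 2) := by
  have e0 : ∀ c, z % 2 ^ t + c < 2 ^ t → (z + c) % 2 ^ t = z % 2 ^ t + c ∧
      (z + c) / 2 ^ t = z / 2 ^ t := fun c hc => by
    have h2 : z + c = (z % 2 ^ t + c) + 2 ^ t * (z / 2 ^ t) := by
      have := Nat.div_add_mod z (2 ^ t)
      omega
    constructor
    · rw [h2, Nat.add_mul_mod_self_left, Nat.mod_eq_of_lt hc]
    · rw [h2, Nat.add_mul_div_left _ _ (by positivity), Nat.div_eq_of_lt hc, zero_add]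
  rw [zsplit, (e0 c0 h0).1, (e0 c1 h1).1, (e0 c1 h1).2, pow_one]
  ring

/-- The factors of the product over the two scales. -/
theorem fac (b : ℕ → ℕ) (n J h k c0 c1 : ℕ) (hk : J * h ≤ k)
    (hlow : ∀ j, (j = k ∨ j = k + 1) → ∀ l, 1 ≤ l → l ≤ n + 1 →
      yy b j l / 2 ^ j + b (l + 1) % 2 ^ (J * h) < 2 ^ (J * h))
    (hS0 : b 1 / 2 ^ (J * h) % 2 ^ (k - J * h) + c0 < 2 ^ (k - J * h))
    (hS1 : b 1 / 2 ^ (J * h) % 2 ^ (k - J * h) + c1 < 2 ^ (k - J * h))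
    (hc0 : yy b k 1 / 2 ^ (J * h) = b 1 / 2 ^ (J * h) + c0)
    (hc1 : yy b (k + 1) 1 / 2 ^ (J * h) = b 1 / 2 ^ (J * h) + c1) :
    sg (V b k (n + 2)) * sg (V b (k + 1) (n + 2)) =
      (sg (b 0 % 2 ^ k) * sg (b 0 % 2 ^ (k + 1))) *
      (∏ l ∈ range (n + 2), Wf J h (yy b k (l + 1)) * Wf J h (yy b (k + 1) (l + 1))) *
      (∏ l ∈ range (n + 1), sg (b (l + 1) / 2 ^ k % 2)) *
      (sg (b 1 / 2 ^ (J * h) % 2 ^ (k - J * h) + c0) *
        sg (b 1 / 2 ^ (J * h) % 2 ^ (k - J * h) + c1)) := by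
  obtain ⟨t, ht⟩ : ∃ t, k = J * h + t := ⟨k - J * h, by omega⟩
  have htt : k - J * h = t := by omega
  rw [htt] at hS0 hS1 ⊢
  have hdd : ∀ l, b l / 2 ^ (J * h) / 2 ^ t = b l / 2 ^ k := fun l => by
    rw [Nat.div_div_eq_div_mul, ← pow_add, ← ht]
  have hk1 : k + 1 = J * h + (t + 1) := by omega
  -- the blocks
  have hmid : ∀ l ∈ range n, sg (yy b k (l + 2) % 2 ^ k) * sg (yy b (k + 1) (l + 2) % 2 ^ (k + 1)) =
      Wf J h (yy b k (l + 2)) * Wf J h (yy b (k + 1) (l + 2)) * sg (b (l + 2) / 2 ^ k % 2) := by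
    intro l hl
    have hl' := mem_range.1 hl
    have e1 : ∀ j, (j = k ∨ j = k + 1) →
        yy b j (l + 2) / 2 ^ (J * h) = b (l + 2) / 2 ^ (J * h) := fun j hj =>
      div_low _ _ _ (hlow j hj (l + 1) (by omega) (by omega))
    have e2 : sg (yy b k (l + 2) % 2 ^ k) =
        Wf J h (yy b k (l + 2)) * sg (b (l + 2) / 2 ^ (J * h) % 2 ^ t) := by
      conv_lhs => rw [ht]
      rw [zsplit, zones, ← ht, e1 k (Or.inl rfl)]
    have e3 : sg (yy b (k + 1) (l + 2) % 2 ^ (k + 1)) =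
        Wf J h (yy b (k + 1) (l + 2)) * sg (b (l + 2) / 2 ^ (J * h) % 2 ^ (t + 1)) := by
      have e4 : ∀ y, sg (y % 2 ^ (k + 1)) = Wf J h y * sg (y / 2 ^ (J * h) % 2 ^ (t + 1)) :=
        fun y => by rw [hk1, zsplit, zones]
      rw [e4, e1 (k + 1) (Or.inr rfl)]
    rw [e2, e3]
    have e5 := pair_bit (b (l + 2) / 2 ^ (J * h)) t 0 0
      (by rw [add_zero]; exact Nat.mod_lt _ (by positivity))
      (by rw [add_zero]; exact Nat.mod_lt _ (by positivity))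
    rw [add_zero, add_zero, hdd] at e5
    have e6 := sg_sq (b (l + 2) / 2 ^ (J * h) % 2 ^ t)
    calc _ = Wf J h (yy b k (l + 2)) * Wf J h (yy b (k + 1) (l + 2)) *
          (sg (b (l + 2) / 2 ^ (J * h) % 2 ^ t) * sg (b (l + 2) / 2 ^ (J * h) % 2 ^ (t + 1))) := by
          ring
      _ = _ := by rw [e5, e6, one_mul]
  have hone : sg (yy b k 1 % 2 ^ k) * sg (yy b (k + 1) 1 % 2 ^ (k + 1)) =
      Wf J h (yy b k 1) * Wf J h (yy b (k + 1) 1) * sg (b 1 / 2 ^ k % 2) *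
        (sg (b 1 / 2 ^ (J * h) % 2 ^ t + c0) * sg (b 1 / 2 ^ (J * h) % 2 ^ t + c1)) := by
    have e2 : ∀ y, sg (y % 2 ^ k) = Wf J h y * sg (y / 2 ^ (J * h) % 2 ^ t) :=
      fun y => by
        conv_lhs => rw [ht]
        rw [zsplit, zones]
    have e4 : ∀ y, sg (y % 2 ^ (k + 1)) = Wf J h y * sg (y / 2 ^ (J * h) % 2 ^ (t + 1)) :=
      fun y => by rw [hk1, zsplit, zones]
    rw [e2, e4, hc0, hc1]
    have e5 := pair_bit (b 1 / 2 ^ (J * h)) t c0 c1 hS0 hS1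
    rw [hdd] at e5
    calc _ = Wf J h (yy b k 1) * Wf J h (yy b (k + 1) 1) *
          (sg ((b 1 / 2 ^ (J * h) + c0) % 2 ^ t) * sg ((b 1 / 2 ^ (J * h) + c1) % 2 ^ (t + 1))) := by
          ring
      _ = _ := by rw [e5]; ring
  have hlast : sg (yy b k (n + 2)) * sg (yy b (k + 1) (n + 2)) =
      Wf J h (yy b k (n + 2)) * Wf J h (yy b (k + 1) (n + 2)) := by
    have e1 : ∀ j, (j = k ∨ j = k + 1) →
        yy b j (n + 2) / 2 ^ (J * h) = b (n + 2) / 2 ^ (J * h) := fun j hj =>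
      div_low _ _ _ (hlow j hj (n + 1) (by omega) le_rfl)
    rw [split_at (yy b k (n + 2)) (J * h), split_at (yy b (k + 1) (n + 2)) (J * h), zones, zones,
      e1 k (Or.inl rfl), e1 (k + 1) (Or.inr rfl)]
    have e6 := sg_sq (b (n + 2) / 2 ^ (J * h))
    calc _ = Wf J h (yy b k (n + 2)) * Wf J h (yy b (k + 1) (n + 2)) *
          (sg (b (n + 2) / 2 ^ (J * h)) * sg (b (n + 2) / 2 ^ (J * h))) := by ring
      _ = _ := by rw [e6, mul_one]
  rw [sg_V, sg_V]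
  have hprod : (∏ l ∈ range (n + 2), sg (yy b k l % 2 ^ k)) *
      (∏ l ∈ range (n + 2), sg (yy b (k + 1) l % 2 ^ (k + 1))) =
      (∏ l ∈ range n, (Wf J h (yy b k (l + 2)) * Wf J h (yy b (k + 1) (l + 2)) *
        sg (b (l + 2) / 2 ^ k % 2))) *
      (sg (yy b k 1 % 2 ^ k) * sg (yy b (k + 1) 1 % 2 ^ (k + 1))) *
      (sg (b 0 % 2 ^ k) * sg (b 0 % 2 ^ (k + 1))) := by
    rw [← prod_mul_distrib, prod_range_succ', prod_range_succ', prod_congr rfl hmid]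
    rfl
  calc (∏ l ∈ range (n + 2), sg (yy b k l % 2 ^ k)) * sg (yy b k (n + 2)) *
        ((∏ l ∈ range (n + 2), sg (yy b (k + 1) l % 2 ^ (k + 1))) * sg (yy b (k + 1) (n + 2)))
      = ((∏ l ∈ range (n + 2), sg (yy b k l % 2 ^ k)) *
        (∏ l ∈ range (n + 2), sg (yy b (k + 1) l % 2 ^ (k + 1)))) *
        (sg (yy b k (n + 2)) * sg (yy b (k + 1) (n + 2))) := by ring
    _ = _ := by
      rw [hprod, hlast, hone, prod_range_succ (fun l => Wf J h (yy b k (l + 1)) *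
        Wf J h (yy b (k + 1) (l + 1))) (n + 1), prod_range_succ' (fun l => Wf J h (yy b k (l + 1)) *
        Wf J h (yy b (k + 1) (l + 1))) n, prod_range_succ' (fun l => sg (b (l + 1) / 2 ^ k % 2)) n,
        prod_mul_distrib]
      ring

end Pool.Agent.Lib.MP_8fac0f_nt.OW
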