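import Pool.Agent.Lib.MP_8fac0f_nt.OW.Cube2
import Pool.Agent.Lib.MP_8fac0f_nt.OW.Exc

/-!
# Many good `m` for a good `x`
-/

set_option autoImplicit false

namespace Pool.Agent.Lib.MP_8fac0f_nt.OW

open Finset Polynomial N OV

theorem sum_delta_le (J h g : ℕ) (hg : g ≤ 4) (T : Finset ℕ) (hT : T ⊆ range J) :
    ∑ i ∈ T, 2 ^ ((J - i) * h) * (if i = 0 then g else 1) ≤ 2 ^ (J * h + J + 2) := by
  have h1 : ∀ i ∈ T, 2 ^ ((J - i) * h) * (if i = 0 then g else 1) ≤ 2 ^ (J * h + 2) := by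
    intro i _
    rw [pow_add]
    refine Nat.mul_le_mul (Nat.pow_le_pow_right (by norm_num)
      (Nat.mul_le_mul_right _ (Nat.sub_le _ _))) ?_
    split_ifs
    · omega
    · norm_num
  refine (sum_le_card_nsmul _ _ _ h1).trans ?_
  rw [smul_eq_mul]
  have h2 : T.card ≤ J := by
    have := card_le_card hT
    rwa [card_range] at this
  have h3 : T.card ≤ 2 ^ J := h2.trans Nat.lt_two_pow_self.le
  calc T.card * 2 ^ (J * h + 2) ≤ 2 ^ J * 2 ^ (J * h + 2) := Nat.mul_le_mul_right _ h3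
    _ = 2 ^ (J * h + J + 2) := by rw [← pow_add]; congr 1; ring

theorem lower2 (A : ℕ → ℕ) (G d w α A' t μ1 : ℕ) (hA1 : A 1 = 2 ^ α * A') (hA' : Odd A')
    (htl : 2 ^ (w - G - d) ≤ t) (htw : t < 2 ^ w) (hw : G + d + α + 5 ≤ w)
    (hμ : w + α + 2 ≤ μ1) :
    2 ^ (μ1 - (G + d + 2 * α + 5)) ≤ ((Ico (2 ^ μ1) (2 * 2 ^ μ1)).filter fun m => Odd m ∧
      2 ^ (w + α) - t ≤ A 1 * m % 2 ^ (w + α + 2) ∧
      A 1 * m % 2 ^ (w + α + 2) < 2 ^ (w + α) - t / 2).card := by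
  have hb1 : t / 2 ≤ t := Nat.div_le_self _ _
  have p1 : 2 ^ w ≤ 2 ^ (w + α) := Nat.pow_le_pow_right (by norm_num) (by omega)
  have p2 : 2 ^ (w + α) ≤ 2 ^ (w + α + 2) := Nat.pow_le_pow_right (by norm_num) (by omega)
  have h1 := lower_count (A 1) α A' (w + α + 2) (μ1 - (w + α + 2)) (2 ^ (w + α) - t)
    (2 ^ (w + α) - t / 2) (2 ^ μ1) hA1 hA' (by omega) (by congr 1; omega)
    ((Nat.sub_le _ _).trans p2) (Nat.sub_le_sub_left hb1 _)
  refine le_trans ?_ h1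
  have h2 : 2 ^ (w - G - d - α - 3) ≤
      (2 ^ (w + α) - t / 2 - (2 ^ (w + α) - t)) / 2 ^ (α + 1) - 1 := by
    have h3 : 2 * 2 ^ (w - G - d - α - 3) ≤
        (2 ^ (w + α) - t / 2 - (2 ^ (w + α) - t)) / 2 ^ (α + 1) := by
      rw [Nat.le_div_iff_mul_le (by positivity)]
      have e1 : 2 * 2 ^ (w - G - d - α - 3) * 2 ^ (α + 1) = 2 ^ (w - G - d - 1) := by
        have e2 : 2 * 2 ^ (w - G - d - α - 3) = 2 ^ (w - G - d - α - 3 + 1) := by ring
        rw [e2, ← pow_add]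
        congr 1
        omega
      have e3 : 2 ^ (w - G - d) = 2 * 2 ^ (w - G - d - 1) := by
        rw [← pow_succ']
        congr 1
        omega
      rw [e1]
      omega
    have h4 : 0 < 2 ^ (w - G - d - α - 3) := by positivity
    omega
  calc 2 ^ (μ1 - (G + d + 2 * α + 5))
      ≤ 2 ^ ((μ1 - (w + α + 2)) + (w - G - d - α - 3)) :=
        Nat.pow_le_pow_right (by norm_num) (by omega)
    _ = 2 ^ (μ1 - (w + α + 2)) * 2 ^ (w - G - d - α - 3) := by rw [pow_add]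
    _ ≤ _ := Nat.mul_le_mul_left _ h2

theorem per2 (P : ℕ[X]) (n J h k v vp κ G Jp x u μ0 μ1 : ℕ) (hd : P.natDegree = n + 2)
    (hJ : 1 ≤ J) (hG : P.eval 2 < 2 ^ G) (hx1 : 2 ^ u ≤ x) (hu : μ0 = u + 1) (hx2 : x < 2 ^ μ0)
    (hxm : x ≡ 1 [MOD 2 ^ G]) (hv : v = 4 * G + Jp + 3 * (n + 2) + 2 * J + 9) (hκ : κ = v + 4)
    (hvp : vp = (n + 2) * κ + 4 * G + 2 * Jp + 2 * (n + 2) + 2 * J + 10)
    (hμ1 : μ1 = J * h + h + (vp + 2 * (n + 2) + 4)) (hμ0 : μ0 = μ1 + κ)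
    (hk : k + J * h = (G + Jp) + (n + 2) * μ0)
    (hh : v + vp + 2 * G + Jp + 2 * (n + 2) + J + 10 ≤ h)
    (hxD : ∀ T ⊆ Icc 1 (J - 1), T.Nonempty →
      2 ^ (J * h - Jp) ≤ hs P 1 x * (∑ i ∈ T, 2 ^ ((J - i) * h)) % 2 ^ (J * h) ∧
      hs P 1 x * (∑ i ∈ T, 2 ^ ((J - i) * h)) % 2 ^ (J * h) + 2 ^ (J * h - Jp) ≤ 2 ^ (J * h)) :
    ∃ (S : Finset ℕ) (δ : ℕ → ℕ), 2 ^ (μ1 - (3 * G + Jp + (n + 2) + 4)) ≤ S.card ∧ ∀ m ∈ S,
      (∀ T ⊆ range J, m + ∑ i ∈ T, δ i < 2 ^ (μ1 + 2)) ∧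
      Cb J m δ (fun z => sg (P.eval (x + 2 ^ k * z)) * sg (P.eval (x + 2 ^ (k + 1) * z))) = -1 := by
  classical
  have hx0 : 1 ≤ x := Nat.one_le_two_pow.trans hx1
  have hV : ∀ j z : ℕ, P.eval (x + 2 ^ j * z) = V (bb (fun l => hs P l x) z) j (n + 2) :=
    fun j z => by
    rw [eval_shift P (n + 2) hd.le x (2 ^ j * z)]
    unfold V bb hs
    refine sum_congr rfl fun l _ => ?_
    rw [mul_pow, pow_mul]
    ring
  have hAu : ∀ l ≤ n + 2, hs P l x < 2 ^ G * x ^ (n + 2 - l) := fun l hl =>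
    (hs_upper P (n + 2) l x hd hl hx0).trans_lt (Nat.mul_lt_mul_of_pos_right hG (by positivity))
  have hAl : ∀ l ≤ n + 2, x ^ (n + 2 - l) ≤ hs P l x := fun l hl =>
    hs_lower P (n + 2) l x hd (by omega) hl
  have hAv : ∀ l ≤ n + 2, ¬ 2 ^ G ∣ hs P l x := fun l hl =>
    hs_val P (n + 2) l x G hd (by omega) hl hG hxm
  have hA0 : hs P 1 x ≠ 0 := by
    have h1 := hAl 1 (by omega)
    have h2 : 0 < x ^ (n + 2 - 1) := by positivity
    omega
  obtain ⟨α, A', hA', hA1⟩ := Nat.exists_eq_two_pow_mul_odd hA0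
  have hα : α < G := by
    by_contra hcon
    exact hAv 1 (by omega) (hA1 ▸ (pow_dvd_pow 2 (not_lt.1 hcon)).mul_right A')
  set A : ℕ → ℕ := fun l => hs P l x with hA
  -- sizes
  have hJh : h ≤ J * h := Nat.le_mul_of_pos_left h hJ
  have hn1 : (n + 2) * μ0 = μ0 * (n + 1) + μ0 := by ring
  have hn2 : μ0 * (n + 1) = μ1 * (n + 1) + κ * (n + 1) := by rw [hμ0]; ring
  have hn3 : (n + 2) * κ = κ * (n + 1) + κ := by ring
  have hn4 : μ0 ≤ μ0 * (n + 1) := Nat.le_mul_of_pos_right _ (Nat.succ_pos n)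
  rw [hn1] at hk
  rw [hn3] at hvp
  set t := A 0 / 2 ^ k with ht
  have htJ : t < 2 ^ (J * h - Jp) := by
    refine Nat.div_lt_of_lt_mul ?_
    calc A 0 < 2 ^ G * x ^ (n + 2 - 0) := hAu 0 (Nat.zero_le _)
      _ ≤ 2 ^ G * (2 ^ μ0) ^ (n + 2) := Nat.mul_le_mul_left _ (Nat.pow_le_pow_left hx2.le _)
      _ = 2 ^ k * 2 ^ (J * h - Jp) := by
          rw [← pow_mul, ← pow_add, ← pow_add]
          congr 1
          rw [mul_comm μ0, hn1]
          omega
  have htw : t < 2 ^ (J * h) := htJ.trans_le (Nat.pow_le_pow_right (by norm_num) (Nat.sub_le _ _))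
  have htl : 2 ^ (J * h - (G + Jp) - (n + 2)) ≤ t :=
    beta_lower (A 0) (n + 2) (G + Jp) (J * h) x u k (hAl 0 (Nat.zero_le _)) hx1
      (by rw [hk, ← hu, hn1]) (by omega)
  -- the shifts
  set δ : ℕ → ℕ := fun i => 2 ^ ((J - i) * h) * (if i = 0 then A' % 4 else 1) with hδ
  have hg4 : A' % 4 < 4 := Nat.mod_lt _ (by norm_num)
  have hg1 : A' * (A' % 4) % 4 = 1 := by
    have h1 : A' % 4 = 1 ∨ A' % 4 = 3 := by
      obtain ⟨z, hz⟩ := hA'
      omega
    rw [Nat.mul_mod, Nat.mod_mod]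
    rcases h1 with h1 | h1 <;> rw [h1]
  have hσ : ∀ T ⊆ range J, ∑ i ∈ T, δ i ≤ 2 ^ (J * h + J + 2) := fun T hT =>
    sum_delta_le J h (A' % 4) hg4.le T hT
  have hδle : ∀ i < J, δ i ≤ 2 ^ (J * h + J + 2) := fun i hi => by
    have h1 := hσ {i} (singleton_subset_iff.2 (mem_range.2 hi))
    rwa [sum_singleton] at h1
  have hMbig : 2 ^ (J * h + J + 2) * 2 ≤ 2 ^ μ1 := by
    rw [← pow_succ]
    exact Nat.pow_le_pow_right (by norm_num) (by omega)
  have hM2 : 2 ^ (μ1 + 2) = 4 * 2 ^ μ1 := by ring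
  -- tops
  have hblk : ∀ z, z < 2 ^ (μ1 + 2) → ∀ l, 1 ≤ l → l ≤ n + 2 →
      bb A z l / 2 ^ k < 2 ^ (J * h - (v + 1)) := fun z hz l hl1 hl =>
    top_bound A (n + 2) (G + Jp) (J * h) (v + 1) x μ0 μ1 k z l hl1 hl
      ((hAu l hl).trans_le (Nat.mul_le_mul_right _ (Nat.pow_le_pow_right (by norm_num)
        (Nat.le_add_right _ _)))) hx2 hz (by omega) (by rw [hk, hn1]) (by omega)
  have ht2 : ∀ j, (j = k ∨ j = k + 1) → A 0 / 2 ^ j < 2 ^ (J * h) := by
    rintro j (rfl | rfl)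
    · exact htw
    · rw [pow_succ, ← Nat.div_div_eq_div_mul]
      exact lt_of_le_of_lt (Nat.div_le_self _ _) htw
  have htop : ∀ z, z < 2 ^ (μ1 + 2) → ∀ j, (j = k ∨ j = k + 1) → ∀ l, 1 ≤ l → l ≤ n + 1 →
      yy (bb A z) j l / 2 ^ j < 2 ^ (J * h - v) := by
    intro z hz j hj l hl1 hl
    refine yy_top (bb A z) n j k (J * h) v (by rcases hj with rfl | rfl <;> omega) ?_ ?_
      (by omega) (by omega) l hl1 hl
    · have h1 := ht2 j hj
      have h2 : bb A z 0 = A 0 := by unfold bb; rw [pow_zero, mul_one]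
      rwa [h2]
    · intro l' hl1' hl'
      have h1 := hblk z hz l' hl1' (by omega)
      exact (Nat.lt_mul_div_succ (bb A z l') (by positivity : 0 < 2 ^ k)).trans_le
        (Nat.mul_le_mul_left _ h1)
  -- the lower bound
  set E := μ1 - (3 * G + Jp + (n + 2) + 5) with hE
  set Low := (Ico (2 ^ μ1) (2 * 2 ^ μ1)).filter fun m => Odd m ∧
      2 ^ (J * h + α) - t ≤ A 1 * m % 2 ^ (J * h + α + 2) ∧
      A 1 * m % 2 ^ (J * h + α + 2) < 2 ^ (J * h + α) - t / 2 with hLow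
  have clow : 4 * 2 ^ E ≤ Low.card := by
    refine le_trans ?_ (lower2 A (G + Jp) (n + 2) (J * h) α A' t μ1 hA1 hA' htl htw (by omega)
      (by omega))
    calc 4 * 2 ^ E = 2 ^ (2 + E) := by rw [pow_add]; norm_num
      _ ≤ _ := Nat.pow_le_pow_right (by norm_num) (by omega)
  -- exceptions
  set Z := (Ico (2 ^ μ1) (2 ^ (μ1 + 2))).filter fun m => Odd m ∧ ¬ ok A n J h k v vp m with hZ
  have cZ : Z.card ≤ 2 ^ (n + J + 3) * 2 ^ (E - (n + J + 3 + J)) := by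
    have hx3 : 2 ^ μ1 ≤ x := (Nat.pow_le_pow_right (by norm_num) (by omega)).trans hx1
    refine exc_count A n J h k v vp G x μ1 (k - μ1 * (n + 1)) _ hAl hx3 hAv (by omega) (by omega)
      (by omega) (by omega) (by omega) htop ?_ ?_ ?_
    · intro z hz l hl1 hl
      exact (hblk z hz l hl1 (by omega)).trans_le
        (Nat.pow_le_pow_right (by norm_num) (Nat.sub_le _ _))
    · omega
    · omega
  set S := Low.filter fun m => ∀ T ∈ (range J).powerset, ok A n J h k v vp (m + ∑ i ∈ T, δ i)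
    with hS
  have heven : ∀ T ⊆ range J, Even (∑ i ∈ T, δ i) := fun T hT => by
    refine even_iff_two_dvd.2 (dvd_sum fun i hi => ?_)
    have hi' := mem_range.1 (hT hi)
    refine Dvd.dvd.mul_right (dvd_pow_self 2 ?_) _
    have h1 : 1 ≤ J - i := by omega
    have h2 : 1 ≤ (J - i) * h := Nat.mul_pos h1 (by omega)
    omega
  have hcov : Low ⊆ S ∪ (range J).powerset.biUnion fun T =>
      (Ico (2 ^ μ1) (2 * 2 ^ μ1)).filter fun m => m + ∑ i ∈ T, δ i ∈ Z := by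
    intro m hm
    by_cases hmS : ∀ T ∈ (range J).powerset, ok A n J h k v vp (m + ∑ i ∈ T, δ i)
    · exact mem_union_left _ (mem_filter.2 ⟨hm, hmS⟩)
    · push Not at hmS
      obtain ⟨T, hT, hnok⟩ := hmS
      have hT' := mem_powerset.1 hT
      obtain ⟨hm1, hm2, -, -⟩ := mem_filter.1 hm
      have hm3 := mem_Ico.1 hm1
      have h1 := hσ T hT'
      refine mem_union_right _ (mem_biUnion.2 ⟨T, hT, mem_filter.2 ⟨hm1, mem_filter.2
        ⟨mem_Ico.2 ⟨by omega, by omega⟩, hm2.add_even (heven T hT'), hnok⟩⟩⟩)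
  have cT : ∀ T ∈ (range J).powerset, ((Ico (2 ^ μ1) (2 * 2 ^ μ1)).filter fun m =>
      m + ∑ i ∈ T, δ i ∈ Z).card ≤ Z.card := fun T _ =>
    card_le_card_of_injOn (fun m => m + ∑ i ∈ T, δ i)
      (fun m hm => (mem_filter.1 (mem_coe.1 hm)).2) (fun a _ b _ hab => by
        have h1 : a + ∑ i ∈ T, δ i = b + ∑ i ∈ T, δ i := hab
        omega)
  have hcard := (card_le_card hcov).trans ((card_union_le _ _).trans
    (Nat.add_le_add_left (card_biUnion_le_card_mul _ _ _ cT) _))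
  rw [card_powerset, card_range] at hcard
  have hZ2 : 2 ^ J * Z.card ≤ 2 ^ E := by
    refine (Nat.mul_le_mul_left _ cZ).trans ?_
    rw [← pow_add, ← pow_add]
    exact Nat.pow_le_pow_right (by norm_num) (by omega)
  refine ⟨S, δ, ?_, fun m hm => ?_⟩
  · have e1 : 2 ^ (μ1 - (3 * G + Jp + (n + 2) + 4)) = 2 * 2 ^ E := by
      rw [← pow_succ']
      congr 1
      omega
    rw [e1]
    omega
  · obtain ⟨hm1, hokm⟩ := mem_filter.1 hm
    obtain ⟨hm2, hodd, hlo, hhi⟩ := mem_filter.1 hm1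
    have hm3 := mem_Ico.1 hm2
    have hlt : ∀ T ⊆ range J, m + ∑ i ∈ T, δ i < 2 ^ (μ1 + 2) := fun T hT => by
      have h1 := hσ T hT
      omega
    refine ⟨hlt, ?_⟩
    simp only [hV]
    refine cube A n J h k v vp (G + (n + 2) + μ0 * (n + 1) + 3) α A' (A' % 4) t m δ hJ ?_ ?_
      (by omega) (by omega) hA1 hg1 rfl hlo hhi htw ?_ (fun T hT => hokm T (mem_powerset.2 hT))
      ?_ (fun T hT => htop _ (hlt T hT))
    · change 2 ^ ((J - 0) * h) * (if (0 : ℕ) = 0 then A' % 4 else 1) = _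
      rw [Nat.sub_zero, if_pos rfl]
    · intro i _
      exact ⟨_, rfl⟩
    · -- the first block at the other vertices
      intro T hT hi
      have hsplit : ∃ z, ∑ i ∈ T, δ i = 2 ^ (J * h) * z + ∑ i ∈ T.erase 0, 2 ^ ((J - i) * h) := by
        have h1 : ∑ i ∈ T.erase 0, δ i = ∑ i ∈ T.erase 0, 2 ^ ((J - i) * h) := by
          refine sum_congr rfl fun i hi => ?_
          change 2 ^ ((J - i) * h) * (if i = 0 then A' % 4 else 1) = _
          rw [if_neg (ne_of_mem_erase hi), mul_one]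
        by_cases h0 : 0 ∈ T
        · refine ⟨A' % 4, ?_⟩
          rw [← add_sum_erase T δ h0, h1]
          change 2 ^ ((J - 0) * h) * (if (0 : ℕ) = 0 then A' % 4 else 1) + _ = _
          rw [Nat.sub_zero, if_pos rfl]
        · refine ⟨0, ?_⟩
          rw [mul_zero, zero_add, ← h1, erase_eq_of_notMem h0]
      obtain ⟨z, hz⟩ := hsplit
      obtain ⟨i, hiT, hi1⟩ := hi
      have h2 := hxD (T.erase 0) (fun i hi => by
        have h3 := mem_range.1 (hT (mem_of_mem_erase hi))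
        have h4 := ne_of_mem_erase hi
        exact mem_Icc.2 ⟨by omega, by omega⟩) ⟨i, mem_erase.2 ⟨by omega, hiT⟩⟩
      have h5 : A 1 * (∑ i ∈ T, δ i) % 2 ^ (J * h) =
          hs P 1 x * (∑ i ∈ T.erase 0, 2 ^ ((J - i) * h)) % 2 ^ (J * h) := by
        rw [hz, mul_add, mul_left_comm, add_comm, Nat.add_mul_mod_self_left]
      rw [h5]
      omega
    · intro T hT i hi l hl
      rcases Nat.eq_zero_or_pos l with rfl | hl1
      · unfold bb
        rw [pow_zero, pow_zero]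
        exact Nat.le_add_right _ _
      · have h1 := hσ T hT
        have h2 := hδle i hi
        have h3 := gap_upper A (n + 2) G ((J - i) * h) x μ0 μ1 (if i = 0 then A' % 4 else 1)
          (m + ∑ i ∈ T, δ i) l hl1 (by omega) (hAu l (by omega)) hx2 (by
            change m + ∑ i ∈ T, δ i + δ i < 2 ^ (μ1 + 2)
            omega) (by split_ifs <;> omega) (by omega)
        have e1 : G + (n + 2) + μ0 * (n + 2 - 1) + (J - i) * h + 3 =
            G + (n + 2) + μ0 * (n + 1) + 3 + (J - i) * h := by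
          have : n + 2 - 1 = n + 1 := by omega
          rw [this]; ring
        rw [e1] at h3
        exact (Nat.le_add_right _ _).trans h3

end Pool.Agent.Lib.MP_8fac0f_nt.OW
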