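import Pool.Agent.Lib.MP_8fac0f_nt.OW.Per2

/-!
# The number of the arguments with a prescribed letter
-/

set_option autoImplicit false

namespace Pool.Agent.Lib.MP_8fac0f_nt.OW

open Finset Polynomial N OV

theorem sigma_form (J h : ℕ) (hh : 1 ≤ h) (T : Finset ℕ) (hT : T ⊆ Icc 1 (J - 1))
    (hne : T.Nonempty) :
    ∃ e c, ∑ i ∈ T, 2 ^ ((J - i) * h) = 2 ^ e * c ∧ Odd c ∧ e + h ≤ J * h := by
  set s := T.max' hne with hs
  have hsT : s ∈ T := max'_mem T hne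
  have hs1 := mem_Icc.1 (hT hsT)
  refine ⟨(J - s) * h, ∑ i ∈ T, 2 ^ ((s - i) * h), ?_, ?_, ?_⟩
  · rw [mul_sum]
    refine sum_congr rfl fun i hi => ?_
    have h1 : i ≤ s := le_max' T i hi
    rw [← pow_add, ← add_mul]
    congr 2
    omega
  · rw [← add_sum_erase T _ hsT, Nat.sub_self, zero_mul, pow_zero]
    refine Odd.add_even odd_one (even_iff_two_dvd.2 (dvd_sum fun i hi => ?_))
    have h1 : i ≤ s := le_max' T i (mem_of_mem_erase hi)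
    have h2 := ne_of_mem_erase hi
    refine dvd_pow_self 2 ?_
    have h3 : 1 ≤ (s - i) * h := Nat.mul_pos (by omega) (by omega)
    omega
  · calc (J - s) * h + h = (J - s + 1) * h := by ring
      _ ≤ J * h := Nat.mul_le_mul_right _ (by omega)

theorem not_bad (r w Jp z : ℕ) (hJw : Jp + 1 ≤ w) (hr : r = z % 2 ^ w)
    (h : ¬ (z + 2 ^ (w - Jp)) % 2 ^ w < 2 ^ (w - Jp + 1)) :
    2 ^ (w - Jp) ≤ r ∧ r + 2 ^ (w - Jp) ≤ 2 ^ w := by
  have h1 : 2 ^ (w - Jp + 1) = 2 * 2 ^ (w - Jp) := by ring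
  have h2 : 2 ^ (w - Jp + 1) ≤ 2 ^ w := by
    rcases Nat.eq_zero_or_pos Jp with rfl | hJ
    · exfalso
      apply h
      rw [Nat.sub_zero, Nat.add_mod_right]
      have := Nat.mod_lt z (by positivity : 0 < 2 ^ w)
      rw [pow_succ]; omega
    · exact Nat.pow_le_pow_right (by norm_num) (by omega)
  have h3 : r < 2 ^ w := by rw [hr]; exact Nat.mod_lt _ (by positivity)
  have h4 : (z + 2 ^ (w - Jp)) % 2 ^ w = (r + 2 ^ (w - Jp)) % 2 ^ w := by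
    rw [hr, Nat.mod_add_mod]
  rw [h4] at h
  constructor
  · by_contra hcon
    apply h
    rw [Nat.mod_eq_of_lt (by omega)]
    omega
  · by_contra hcon
    apply h
    rw [Nat.mod_eq_sub_mod (by omega), Nat.mod_eq_of_lt (by omega)]
    omega

theorem exists_sign (J m : ℕ) (δ : ℕ → ℕ) (f0 f1 : ℕ → ℝ) (ε : ℝ) (hε : ε = 1 ∨ ε = -1)
    (hf0 : ∀ x, f0 x = 1 ∨ f0 x = -1) (hf1 : ∀ x, f1 x = 1 ∨ f1 x = -1)
    (h : Cb J m δ (fun x => f0 x * f1 x) = -1) :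
    ∃ T ∈ (range J).powerset, f0 (m + ∑ i ∈ T, δ i) = ε ∨ f1 (m + ∑ i ∈ T, δ i) = ε := by
  by_contra hcon
  push Not at hcon
  have hfl : ∀ y : ℝ, (y = 1 ∨ y = -1) → y ≠ ε → y = -ε := fun y hy hne => by
    rcases hy with rfl | rfl
    · rcases hε with rfl | rfl
      · exact absurd rfl hne
      · exact (neg_neg 1).symm
    · rcases hε with rfl | rfl
      · rfl
      · exact absurd rfl hne
  have h1 : Cb J m δ (fun x => f0 x * f1 x) = 1 := by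
    unfold Cb
    refine prod_eq_one fun T hT => ?_
    obtain ⟨g1, g2⟩ := hcon T hT
    beta_reduce
    rw [hfl _ (hf0 _) g1, hfl _ (hf1 _) g2]
    rcases hε with rfl | rfl <;> norm_num
  rw [h1] at h
  norm_num at h

theorem twinJ (P : ℕ[X]) (n J : ℕ) (hd : P.natDegree = n + 2) (hJ : 1 ≤ J) :
    ∃ lam h0 : ℕ, ∀ h : ℕ, h0 ≤ h → ∀ N : ℕ, 2 ^ (lam + ((n + 2) * (J + 1) + 1) * h) ≤ N →
      ∀ ε : ℝ, (ε = 1 ∨ ε = -1) →
        2 ^ (2 * (J + 1) * h) ≤ 2 ^ (J + 1) *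
          ((range N).filter fun m => sg (P.eval m) = ε).card := by
  classical
  obtain ⟨G, hG⟩ : ∃ G, P.eval 2 < 2 ^ G := ⟨P.eval 2, Nat.lt_two_pow_self⟩
  obtain ⟨Jp, hJp⟩ : ∃ Jp, Jp = 2 * G + J + 4 := ⟨_, rfl⟩
  obtain ⟨v, hv⟩ : ∃ v, v = 4 * G + Jp + 3 * (n + 2) + 2 * J + 9 := ⟨_, rfl⟩
  obtain ⟨κ, hκ⟩ : ∃ κ, κ = v + 4 := ⟨_, rfl⟩
  obtain ⟨vp, hvp⟩ : ∃ vp, vp = (n + 2) * κ + 4 * G + 2 * Jp + 2 * (n + 2) + 2 * J + 10 :=
    ⟨_, rfl⟩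
  obtain ⟨κ1, hκ1⟩ : ∃ κ1, κ1 = vp + 2 * (n + 2) + 4 := ⟨_, rfl⟩
  refine ⟨κ1 + G + Jp + 3 + (n + 2) * (κ1 + κ),
    v + vp + 2 * G + Jp + 2 * (n + 2) + J + 10, fun h hh N hN ε hε => ?_⟩
  have hJh : h ≤ J * h := Nat.le_mul_of_pos_left h hJ
  obtain ⟨μ1, hμ1'⟩ : ∃ μ1, μ1 = J * h + h + κ1 := ⟨_, rfl⟩
  have hμ1 : μ1 = J * h + h + (vp + 2 * (n + 2) + 4) := by omega
  obtain ⟨μ0, hμ0⟩ : ∃ μ0, μ0 = μ1 + κ := ⟨_, rfl⟩
  obtain ⟨u, hu⟩ : ∃ u, μ0 = u + 1 := ⟨μ0 - 1, by omega⟩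
  have hn1 : 2 * μ0 ≤ (n + 2) * μ0 := Nat.mul_le_mul_right _ (by omega)
  obtain ⟨k, hk⟩ : ∃ k, k + J * h = (G + Jp) + (n + 2) * μ0 :=
    ⟨(G + Jp) + (n + 2) * μ0 - J * h, by omega⟩
  have hμk : μ0 ≤ k := by omega
  have hN' : 2 ^ (μ1 + k + 3) ≤ N := by
    refine le_trans (le_of_eq ?_) hN
    congr 1
    have e1 : μ1 + k + 3 + J * h = μ1 + 3 + ((G + Jp) + (n + 2) * μ0) := by omega
    have e2 : μ1 + 3 + ((G + Jp) + (n + 2) * μ0) = κ1 + G + Jp + 3 + (n + 2) * (κ1 + κ) +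
        ((n + 2) * (J + 1) + 1) * h + J * h := by
      rw [hμ0, hμ1']; ring
    omega
  -- the arguments x
  set x : ℕ → ℕ := fun y => 2 ^ u + 2 ^ (G + 1) * y + 1 with hx
  have hGu : 2 ^ u = 2 ^ (G + 1) * 2 ^ (u - G - 1) := by rw [← pow_add]; congr 1; omega
  have p1 : 2 ^ 1 ≤ 2 ^ (G + 1) := Nat.pow_le_pow_right (by norm_num) (by omega)
  have hxlt : ∀ y ∈ range (2 ^ (u - G - 1)), x y < 2 ^ μ0 := fun y hy => by
    have h1 := mem_range.1 hy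
    have h2 : 2 ^ (G + 1) * y + 2 ^ (G + 1) ≤ 2 ^ u := by
      rw [hGu]
      calc 2 ^ (G + 1) * y + 2 ^ (G + 1) = 2 ^ (G + 1) * (y + 1) := by ring
        _ ≤ _ := Nat.mul_le_mul_left _ h1
    have h3 : 2 ^ μ0 = 2 * 2 ^ u := by rw [hu]; ring
    change 2 ^ u + 2 ^ (G + 1) * y + 1 < 2 ^ μ0
    omega
  set 𝒯 := (Icc 1 (J - 1)).powerset.erase ∅ with h𝒯
  have c𝒯 : 𝒯.card ≤ 2 ^ J := by
    refine (card_le_card (erase_subset _ _)).trans ?_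
    rw [card_powerset, Nat.card_Icc]
    exact Nat.pow_le_pow_right (by norm_num) (by omega)
  set Bd : Finset ℕ → Finset ℕ := fun T => (range (2 ^ (u - G - 1))).filter fun y =>
      (hs P 1 (x y) * (∑ i ∈ T, 2 ^ ((J - i) * h)) + 2 ^ (J * h - Jp)) % 2 ^ (J * h) <
        2 ^ (J * h - Jp + 1) with hBd
  have cBd : ∀ T ∈ 𝒯, (Bd T).card ≤ 2 ^ (u + 2 + G - Jp) := fun T hT => by
    have hT1 := mem_powerset.1 (mem_of_mem_erase hT)
    have hT2 := nonempty_iff_ne_empty.2 (ne_of_mem_erase hT)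
    obtain ⟨e, c, hσ, hc, he⟩ := sigma_form J h (by omega) T hT1 hT2
    exact x_count P (n + 2) G (J * h) u Jp _ e c hd (by omega) hG hσ hc (by omega) (by omega)
  set Y := (range (2 ^ (u - G - 1))).filter fun y => ∀ T ∈ 𝒯, y ∉ Bd T with hY
  have cY : 2 ^ (u - G - 2) ≤ Y.card := by
    have hsub : range (2 ^ (u - G - 1)) ⊆ Y ∪ 𝒯.biUnion Bd := by
      intro y hy
      by_cases hyT : ∀ T ∈ 𝒯, y ∉ Bd T
      · exact mem_union_left _ (mem_filter.2 ⟨hy, hyT⟩)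
      · push Not at hyT
        obtain ⟨T, hT, h1⟩ := hyT
        exact mem_union_right _ (mem_biUnion.2 ⟨T, hT, h1⟩)
    have h1 := (card_le_card hsub).trans ((card_union_le _ _).trans
      (Nat.add_le_add_left (card_biUnion_le_card_mul _ _ _ cBd) _))
    rw [card_range] at h1
    have h2 : 𝒯.card * 2 ^ (u + 2 + G - Jp) ≤ 2 ^ (u - G - 2) := by
      refine (Nat.mul_le_mul_right _ c𝒯).trans ?_
      rw [← pow_add]
      exact Nat.pow_le_pow_right (by norm_num) (by omega)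
    have h3 : 2 ^ (u - G - 1) = 2 * 2 ^ (u - G - 2) := by
      rw [← pow_succ']; congr 1; omega
    omega
  have hper : ∀ y : ℕ, ∃ (S : Finset ℕ) (δ : ℕ → ℕ), y ∈ Y →
      2 ^ (μ1 - (3 * G + Jp + (n + 2) + 4)) ≤ S.card ∧ ∀ m ∈ S,
      (∀ T ⊆ range J, m + ∑ i ∈ T, δ i < 2 ^ (μ1 + 2)) ∧
      Cb J m δ (fun z => sg (P.eval (x y + 2 ^ k * z)) * sg (P.eval (x y + 2 ^ (k + 1) * z))) =
        -1 := by
    intro y
    by_cases hy : y ∈ Y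
    · obtain ⟨hy1, hy2⟩ := mem_filter.1 hy
      obtain ⟨S, δ, h1⟩ := per2 P n J h k v vp κ G Jp (x y) u μ0 μ1 hd hJ hG
        (by change 2 ^ u ≤ 2 ^ u + 2 ^ (G + 1) * y + 1; omega) hu (hxlt y hy1) (by
          have e1 : x y = 1 + 2 ^ (G + 1) * (2 ^ (u - G - 1) + y) := by
            change 2 ^ u + 2 ^ (G + 1) * y + 1 = _
            rw [hGu]; ring
          have h2 : x y ≡ 1 [MOD 2 ^ (G + 1)] := by
            rw [e1]
            exact Nat.ModEq.add_left 1 (Nat.modEq_zero_iff_dvd.2 (Dvd.intro _ rfl))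
          exact h2.of_dvd (pow_dvd_pow 2 (Nat.le_succ G))) hv hκ hvp hμ1 hμ0 hk hh
        (fun T hT hne => by
          have h2 := hy2 T (mem_erase.2 ⟨nonempty_iff_ne_empty.1 hne, mem_powerset.2 hT⟩)
          refine not_bad _ (J * h) Jp _ (by omega) rfl fun h3 => h2 (mem_filter.2 ⟨hy1, h3⟩))
      exact ⟨S, δ, fun _ => h1⟩
    · exact ⟨∅, fun _ => 0, fun h => absurd h hy⟩
  choose S δ hSδ using hper
  set F : Finset (Σ _ : ℕ, ℕ) := Y.sigma S with hF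
  have hFcard : 2 ^ (2 * (J + 1) * h) ≤ F.card := by
    rw [hF, card_sigma]
    have e0 : 2 * (J + 1) * h = 2 * (J * h) + 2 * h := by ring
    calc 2 ^ (2 * (J + 1) * h) ≤ 2 ^ ((u - G - 2) + (μ1 - (3 * G + Jp + (n + 2) + 4))) :=
          Nat.pow_le_pow_right (by norm_num) (by omega)
      _ = 2 ^ (u - G - 2) * 2 ^ (μ1 - (3 * G + Jp + (n + 2) + 4)) := pow_add _ _ _
      _ ≤ Y.card * 2 ^ (μ1 - (3 * G + Jp + (n + 2) + 4)) := Nat.mul_le_mul_right _ cY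
      _ = Y.card • 2 ^ (μ1 - (3 * G + Jp + (n + 2) + 4)) := (smul_eq_mul _ _).symm
      _ ≤ _ := card_nsmul_le_sum _ _ _ fun y hy => (hSδ y hy).1
  set R := (range N).filter fun m => sg (P.eval m) = ε with hR
  -- the maps
  set f : Finset ℕ × ℕ → (Σ _ : ℕ, ℕ) → ℕ := fun τ p =>
    x p.1 + 2 ^ (k + τ.2) * (p.2 + ∑ i ∈ τ.1, δ p.1 i) with hf
  have hYr : ∀ y ∈ Y, y ∈ range (2 ^ (u - G - 1)) := fun y hy => (mem_filter.1 hy).1
  have hone : ∀ τ, (F.filter fun p => f τ p ∈ R).card ≤ R.card := by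
    intro τ
    refine card_le_card_of_injOn (f τ) (fun p hp => (mem_filter.1 (mem_coe.1 hp)).2) ?_
    have hdiv : ∀ p ∈ F, f τ p / 2 ^ (k + τ.2) = p.2 + ∑ i ∈ τ.1, δ p.1 i ∧
        f τ p % 2 ^ (k + τ.2) = x p.1 := by
      intro p hp
      have h1 := hYr _ (mem_sigma.1 hp).1
      have h2 : x p.1 < 2 ^ (k + τ.2) := (hxlt _ h1).trans_le
        (Nat.pow_le_pow_right (by norm_num) (by omega))
      constructor
      · change (x p.1 + 2 ^ (k + τ.2) * (p.2 + ∑ i ∈ τ.1, δ p.1 i)) / 2 ^ (k + τ.2) = _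
        rw [Nat.add_mul_div_left _ _ (by positivity), Nat.div_eq_of_lt h2, zero_add]
      · change (x p.1 + 2 ^ (k + τ.2) * (p.2 + ∑ i ∈ τ.1, δ p.1 i)) % 2 ^ (k + τ.2) = _
        rw [Nat.add_mul_mod_self_left, Nat.mod_eq_of_lt h2]
    intro p hp q hq hpq
    obtain ⟨h1, h2⟩ := hdiv p (mem_filter.1 (mem_coe.1 hp)).1
    obtain ⟨h3, h4⟩ := hdiv q (mem_filter.1 (mem_coe.1 hq)).1
    rw [hpq] at h1 h2
    have h5 : x p.1 = x q.1 := h2.symm.trans h4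
    have h6 : p.1 = q.1 := by
      have h7 : 2 ^ u + 2 ^ (G + 1) * p.1 + 1 = 2 ^ u + 2 ^ (G + 1) * q.1 + 1 := h5
      exact Nat.eq_of_mul_eq_mul_left (by positivity : 0 < 2 ^ (G + 1)) (by omega)
    have h8 : p.2 = q.2 := by
      have h9 := h1.symm.trans h3
      rw [h6] at h9
      omega
    exact Sigma.ext h6 (heq_of_eq h8)
  have hbd : ∀ τ : Finset ℕ × ℕ, τ.2 ≤ 1 → τ.1 ⊆ range J → ∀ p ∈ F, f τ p < N := by
    intro τ hτ hτJ p hp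
    obtain ⟨hp1, hp2⟩ := mem_sigma.1 hp
    have hlt := ((hSδ p.1 hp1).2 p.2 hp2).1 τ.1 hτJ
    refine lt_of_lt_of_le ?_ hN'
    have h3 : x p.1 < 2 ^ (k + τ.2) := (hxlt _ (hYr _ hp1)).trans_le
      (Nat.pow_le_pow_right (by norm_num) (by omega))
    calc x p.1 + 2 ^ (k + τ.2) * (p.2 + ∑ i ∈ τ.1, δ p.1 i)
        < 2 ^ (k + τ.2) + 2 ^ (k + τ.2) * (p.2 + ∑ i ∈ τ.1, δ p.1 i) :=
          Nat.add_lt_add_right h3 _
      _ = 2 ^ (k + τ.2) * (p.2 + ∑ i ∈ τ.1, δ p.1 i + 1) := by ring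
      _ ≤ 2 ^ (k + τ.2) * 2 ^ (μ1 + 2) := Nat.mul_le_mul_left _ hlt
      _ ≤ 2 ^ (μ1 + k + 3) := by
          rw [← pow_add]; exact Nat.pow_le_pow_right (by norm_num) (by omega)
  have hcov : F ⊆ ((range J).powerset ×ˢ range 2).biUnion fun τ =>
      F.filter fun p => f τ p ∈ R := by
    intro p hp
    obtain ⟨h1, h2⟩ := mem_sigma.1 hp
    obtain ⟨T, hT, h3⟩ := exists_sign J p.2 (δ p.1)
      (fun z => sg (P.eval (x p.1 + 2 ^ k * z))) (fun z => sg (P.eval (x p.1 + 2 ^ (k + 1) * z)))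
      ε hε (fun _ => sg_cases _) (fun _ => sg_cases _) ((hSδ p.1 h1).2 p.2 h2).2
    rcases h3 with h3 | h3
    · exact mem_biUnion.2 ⟨(T, 0), mem_product.2 ⟨hT, mem_range.2 (by norm_num)⟩, mem_filter.2 ⟨hp, mem_filter.2
        ⟨mem_range.2 (hbd (T, 0) (by norm_num) (mem_powerset.1 hT) p hp), h3⟩⟩⟩
    · exact mem_biUnion.2 ⟨(T, 1), mem_product.2 ⟨hT, mem_range.2 (by norm_num)⟩, mem_filter.2 ⟨hp, mem_filter.2
        ⟨mem_range.2 (hbd (T, 1) le_rfl (mem_powerset.1 hT) p hp), h3⟩⟩⟩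
  calc 2 ^ (2 * (J + 1) * h) ≤ F.card := hFcard
    _ ≤ _ := card_le_card hcov
    _ ≤ ((range J).powerset ×ˢ range 2).card * R.card :=
        card_biUnion_le_card_mul _ _ _ fun τ _ => hone τ
    _ = 2 ^ (J + 1) * R.card := by
        rw [card_product, card_powerset, card_range, card_range, pow_succ]

end Pool.Agent.Lib.MP_8fac0f_nt.OW
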